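import Pool.Agent.P8H64.ZF.Pts

/-!
# Points of affine schemes, of the affine bundles of Jouanolou and of `X × 𝔾_m` over a finite field
-/

set_option autoImplicit false

open CategoryTheory CategoryTheory.Limits AlgebraicGeometry MvPolynomial Pool.Agent.Y116.UV

namespace Pool.Agent.P8H64.ZF

variable {F : Type} [Field F]

/-- finitely many ring homomorphisms into a finite field -/
lemma finite_hom [Finite F] (A : Type) [CommRing A] [Algebra ℤ A] [Algebra.FiniteType ℤ A] :
    Finite (A →+* F) := by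
  obtain ⟨n, f, hf⟩ := (Algebra.FiniteType.iff_quotient_mvPolynomial'' (R := ℤ) (S := A)).mp inferInstance
  refine Finite.of_injective (fun (φ : A →+* F) (i : Fin n) => φ (f (X i))) fun φ ψ h => ?_
  have h1 : φ.comp (f : MvPolynomial (Fin n) ℤ →+* A) = ψ.comp (f : MvPolynomial (Fin n) ℤ →+* A) := by
    apply MvPolynomial.ringHom_ext
    · intro m
      exact (map_intCast (φ.comp (f : MvPolynomial (Fin n) ℤ →+* A)) m).trans
        (map_intCast (ψ.comp (f : MvPolynomial (Fin n) ℤ →+* A)) m).symm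
    · intro i
      exact congrFun h i
  ext a
  obtain ⟨b, rfl⟩ := hf a
  exact congrArg (fun g : MvPolynomial (Fin n) ℤ →+* F => g b) h1

/-- the points of an open part of an affine scheme -/
lemma pt_open (A : Type) [CommRing A] [Algebra ℤ A] {m : ℕ} (f : Fin m → A) (U : Sch ℤ)
    (j : U ⟶ aff ℤ A) [IsOpenImmersion j.left]
    (h : Set.range j.left = {x : PrimeSpectrum A | ∃ l, f l ∉ x.asIdeal}) :
    Nonempty (Pt U F ≃ {φ : A →+* F // ∃ l, φ (f l) ≠ 0}) := by
  have key : ∀ φ : A →+* F, pt0 (X := aff ℤ A) ((pt_aff A).symm φ) ∈ Set.range j.left ↔ ∃ l, φ (f l) ≠ 0 := by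
    intro φ
    rw [h]
    have h1 : (pt0 (X := aff ℤ A) ((pt_aff A).symm φ) : PrimeSpectrum A) =
        PrimeSpectrum.comap φ (default : PrimeSpectrum F) := rfl
    rw [h1]
    change (∃ l, f l ∉ (PrimeSpectrum.comap φ (default : PrimeSpectrum F)).asIdeal) ↔ _
    refine exists_congr fun l => ?_
    rw [PrimeSpectrum.comap_asIdeal, Ideal.mem_comap]
    have h2 : (default : PrimeSpectrum F).asIdeal = ⊥ := by
      exact (Ideal.eq_bot_or_top _).resolve_right (default : PrimeSpectrum F).isPrime.ne_top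
    rw [h2, Ideal.mem_bot]
  let T : Pt U F → {φ : A →+* F // ∃ l, φ (f l) ≠ 0} := fun g =>
    ⟨pt_aff A (g ≫ j.left), (key _).mp (by
      rw [Equiv.symm_apply_apply, pt0_comp]
      exact ⟨_, rfl⟩)⟩
  refine ⟨Equiv.ofBijective T ⟨fun g g' hg => ?_, fun φ => ?_⟩⟩
  · have h1 : pt_aff A (g ≫ j.left) = pt_aff A (g' ≫ j.left) := congrArg Subtype.val hg
    exact (cancel_mono j.left).mp ((pt_aff A).injective h1)
  · obtain ⟨g, hg⟩ := lift_open j ((pt_aff A).symm φ.1) ((key φ.1).mpr φ.2)
    refine ⟨g, Subtype.ext ?_⟩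
    change pt_aff A (g ≫ j.left) = φ.1
    rw [hg, Equiv.apply_symm_apply]

/-- the points of the affine bundle of Jouanolou -/
noncomputable def hom_jou {A : Type} [CommRing A] {m : ℕ} (f : Fin m → A) :
    (Jou f →+* F) ≃ {y : (A →+* F) × (Fin m → F) // ∑ l, y.1 (f l) * y.2 l = 1} where
  toFun ψ := ⟨((ψ.comp (Ideal.Quotient.mk _)).comp C, fun l => ψ (Ideal.Quotient.mk _ (X l))), by
    have h1 : (Ideal.Quotient.mk (Ideal.span {∑ l, C (f l) * X l - 1}) (∑ l, C (f l) * X l - 1) :
        Jou f) = 0 := Ideal.Quotient.eq_zero_iff_mem.mpr (Ideal.mem_span_singleton_self _)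
    have h2 := congrArg ψ h1
    rw [map_zero, map_sub, map_sub, map_one, map_one, sub_eq_zero, map_sum, map_sum] at h2
    rw [← h2]
    refine Finset.sum_congr rfl fun l _ => ?_
    rw [map_mul, map_mul]
    rfl⟩
  invFun y := Ideal.Quotient.lift _ (eval₂Hom y.1.1 y.1.2) (by
    intro a ha
    have h1 : Ideal.span {∑ l, C (f l) * X l - 1} ≤ RingHom.ker (eval₂Hom y.1.1 y.1.2) := by
      rw [Ideal.span_le, Set.singleton_subset_iff]
      change eval₂Hom y.1.1 y.1.2 (∑ l, C (f l) * X l - 1) = 0
      rw [map_sub, map_one, map_sum, sub_eq_zero]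
      refine (Finset.sum_congr rfl fun l _ => ?_).trans y.2
      rw [map_mul, eval₂Hom_C, eval₂Hom_X']
    exact h1 ha)
  left_inv ψ := by
    apply Ideal.Quotient.ringHom_ext
    apply MvPolynomial.ringHom_ext
    · intro a
      change eval₂Hom _ _ (C a) = _
      rw [eval₂Hom_C]
      rfl
    · intro l
      change eval₂Hom _ _ (X l) = _
      rw [eval₂Hom_X']
      rfl
  right_inv y := by
    apply Subtype.ext
    apply Prod.ext
    · ext a
      change eval₂Hom y.1.1 y.1.2 (C a) = _
      rw [eval₂Hom_C]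
    · funext l
      change eval₂Hom y.1.1 y.1.2 (X l) = _
      rw [eval₂Hom_X']

/-- the number of solutions of one linear equation -/
lemma card_hyper [Finite F] {m : ℕ} (c : Fin m → F) (hc : ∃ l, c l ≠ 0) :
    Nat.card F * Nat.card {x : Fin m → F // ∑ l, c l * x l = 1} = Nat.card F ^ m := by
  classical
  obtain ⟨l, hl⟩ := hc
  -- `(t, x) ↦ x + t e_l / c_l`: a bijection
  let T : F × {x : Fin m → F // ∑ l, c l * x l = 1} → (Fin m → F) := fun y =>
    y.2.1 + Pi.single l (y.1 * (c l)⁻¹)
  have hsum : ∀ (x : Fin m → F) (t : F), ∑ i, c i * (x + Pi.single l (t * (c l)⁻¹) : Fin m → F) i =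
      (∑ i, c i * x i) + t := by
    intro x t
    simp only [Pi.add_apply, mul_add, Finset.sum_add_distrib]
    congr 1
    rw [Finset.sum_eq_single l]
    · rw [Pi.single_eq_same]
      field_simp
    · intro b _ hb
      rw [Pi.single_eq_of_ne hb, mul_zero]
    · intro h
      exact absurd (Finset.mem_univ l) h
  have hT : Function.Bijective T := by
    constructor
    · rintro ⟨t, x⟩ ⟨t', x'⟩ h
      have h1 : ∑ i, c i * (T (t, x)) i = ∑ i, c i * (T (t', x')) i := by rw [h]
      have h2 : t = t' := by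
        have h3 := hsum x.1 t
        have h4 := hsum x'.1 t'
        change ∑ i, c i * (T (t, x)) i = _ at h3
        change ∑ i, c i * (T (t', x')) i = _ at h4
        rw [h3, h4, x.2, x'.2] at h1
        exact add_left_cancel h1
      subst h2
      have h5 : x.1 = x'.1 := add_right_cancel h
      rw [Subtype.ext h5]
    · intro z
      refine ⟨((∑ i, c i * z i) - 1, ⟨z + Pi.single l ((1 - ∑ i, c i * z i) * (c l)⁻¹), ?_⟩), ?_⟩
      · rw [hsum]
        ring
      · change (z + Pi.single l ((1 - ∑ i, c i * z i) * (c l)⁻¹)) +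
          Pi.single l (((∑ i, c i * z i) - 1) * (c l)⁻¹) = z
        rw [add_assoc, ← Pi.single_add]
        have h3 : (1 - ∑ i, c i * z i) * (c l)⁻¹ + ((∑ i, c i * z i) - 1) * (c l)⁻¹ = 0 := by ring
        rw [h3, Pi.single_zero, add_zero]
  have h1 := Nat.card_congr (Equiv.ofBijective T hT)
  rw [Nat.card_prod] at h1
  rw [h1, Nat.card_fun, Nat.card_fin]

/-- the number of points of the affine bundle of Jouanolou -/
lemma card_jou [Finite F] {A : Type} [CommRing A] [Algebra ℤ A] [Algebra.FiniteType ℤ A] {m : ℕ}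
    (f : Fin m → A) :
    Nat.card F * Nat.card (Jou f →+* F) = Nat.card F ^ m * Nat.card {φ : A →+* F // ∃ l, φ (f l) ≠ 0} := by
  classical
  have := finite_hom (F := F) A
  have e : {y : (A →+* F) × (Fin m → F) // ∑ l, y.1 (f l) * y.2 l = 1} ≃
      Σ φ : {φ : A →+* F // ∃ l, φ (f l) ≠ 0}, {x : Fin m → F // ∑ l, φ.1 (f l) * x l = 1} :=
    { toFun := fun y => ⟨⟨y.1.1, by
        by_contra h
        push Not at h
        have h1 := y.2
        rw [Finset.sum_eq_zero (fun l _ => by rw [h l, zero_mul])] at h1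
        exact zero_ne_one h1⟩, ⟨y.1.2, y.2⟩⟩
      invFun := fun z => ⟨(z.1.1, z.2.1), z.2.2⟩
      left_inv := fun y => rfl
      right_inv := fun z => rfl }
  have := Fintype.ofFinite {φ : A →+* F // ∃ l, φ (f l) ≠ 0}
  rw [Nat.card_congr (hom_jou f), Nat.card_congr e, Nat.card_sigma, Finset.mul_sum,
    Finset.sum_congr rfl (fun φ _ => card_hyper (fun l => φ.1 (f l)) φ.2), Finset.sum_const, smul_eq_mul,
    Finset.card_univ, ← Nat.card_eq_fintype_card, mul_comm]

/-- the points of `X × 𝔾_m` -/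
lemma hom_laurent (A : Type) [CommRing A] :
    Nonempty ((LaurentPolynomial A →+* F) ≃ (A →+* F) × Fˣ) := by
  let T : (LaurentPolynomial A →+* F) → (A →+* F) × Fˣ := fun ψ =>
    (ψ.comp LaurentPolynomial.C, Units.map (ψ : LaurentPolynomial A →* F)
      ⟨LaurentPolynomial.T 1, LaurentPolynomial.T (-1),
        by rw [← LaurentPolynomial.T_add, add_neg_cancel, LaurentPolynomial.T_zero],
        by rw [← LaurentPolynomial.T_add, neg_add_cancel, LaurentPolynomial.T_zero]⟩)
  have hp : ∀ ψ : LaurentPolynomial A →+* F, ∀ p : Polynomial A, ψ (Polynomial.toLaurent p) =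
      Polynomial.eval₂ (ψ.comp LaurentPolynomial.C) (ψ (LaurentPolynomial.T 1)) p := by
    intro ψ p
    have h1 : (ψ.comp (Polynomial.toLaurent : Polynomial A →+* LaurentPolynomial A)) =
        Polynomial.eval₂RingHom (ψ.comp LaurentPolynomial.C) (ψ (LaurentPolynomial.T 1)) := by
      apply Polynomial.ringHom_ext
      · intro a
        change ψ (Polynomial.toLaurent (Polynomial.C a)) = Polynomial.eval₂ _ _ (Polynomial.C a)
        rw [Polynomial.toLaurent_C, Polynomial.eval₂_C]
        rfl
      · change ψ (Polynomial.toLaurent Polynomial.X) = Polynomial.eval₂ _ _ Polynomial.X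
        rw [Polynomial.toLaurent_X, Polynomial.eval₂_X]
    exact congrArg (fun g : Polynomial A →+* F => g p) h1
  have hloc : IsLocalization.Away (Polynomial.X : Polynomial A) (LaurentPolynomial A) := inferInstance
  have halg : (algebraMap (Polynomial A) (LaurentPolynomial A)) = Polynomial.toLaurent := rfl
  refine ⟨Equiv.ofBijective T ⟨fun ψ ψ' h => ?_, fun y => ?_⟩⟩
  · have h1 : ψ.comp LaurentPolynomial.C = ψ'.comp LaurentPolynomial.C := congrArg Prod.fst h
    have h2 : ψ (LaurentPolynomial.T 1) = ψ' (LaurentPolynomial.T 1) :=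
      congrArg (fun y : (A →+* F) × Fˣ => (y.2 : F)) h
    apply IsLocalization.ringHom_ext (Submonoid.powers (Polynomial.X : Polynomial A))
    refine RingHom.ext fun p => ?_
    change ψ (Polynomial.toLaurent p) = ψ' (Polynomial.toLaurent p)
    rw [hp, hp, h1, h2]
  · have hu : IsUnit (Polynomial.eval₂RingHom y.1 (y.2 : F) Polynomial.X) := by
      change IsUnit (Polynomial.eval₂ y.1 (y.2 : F) Polynomial.X)
      rw [Polynomial.eval₂_X]
      exact y.2.isUnit
    let ψ : LaurentPolynomial A →+* F := IsLocalization.Away.lift (Polynomial.X : Polynomial A) hu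
    have hψ : ∀ p : Polynomial A, ψ (Polynomial.toLaurent p) = Polynomial.eval₂ y.1 (y.2 : F) p := by
      intro p
      exact IsLocalization.Away.lift_eq (Polynomial.X : Polynomial A) hu p
    refine ⟨ψ, Prod.ext ?_ (Units.ext ?_)⟩
    · ext a
      change ψ (LaurentPolynomial.C a) = y.1 a
      rw [← Polynomial.toLaurent_C, hψ, Polynomial.eval₂_C]
    · change ψ (LaurentPolynomial.T 1) = y.2
      rw [← Polynomial.toLaurent_X, hψ, Polynomial.eval₂_X]

/-- the number of points of `X × 𝔾_m` -/
lemma card_laurent [Finite F] (A : Type) [CommRing A] :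
    Nat.card (LaurentPolynomial A →+* F) + Nat.card (A →+* F) = Nat.card F * Nat.card (A →+* F) := by
  classical
  have := Fintype.ofFinite F
  rw [Nat.card_congr (hom_laurent A).some, Nat.card_prod, Nat.card_units, mul_comm (Nat.card (A →+* F))]
  have h1 : 0 < Nat.card F := Nat.card_pos
  obtain ⟨q, hq⟩ : ∃ q, Nat.card F = q + 1 := ⟨Nat.card F - 1, by omega⟩
  rw [hq, Nat.add_sub_cancel]
  ring

end Pool.Agent.P8H64.ZF
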