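import Pool.Agent.P8H64.ZF.Lw

/-!
# The class of the functions with a meromorphic continuation without zeros and poles on the edge
-/

set_option autoImplicit false

open Complex

namespace Pool.Agent.P8H64.ZF

/-- `f` has a meromorphic continuation `M` from the half plane `Re s > w / 2 + 1` to the plane, and `M` has
neither a zero nor a pole with `Re s ≥ w / 2 + 1`, except possibly at `s = w / 2 + 1` if `w` is even. -/
def Cont (w : ℕ) (f : ℂ → ℂ) : Prop :=
  ∃ M : ℂ → ℂ, Meromorphic M ∧ (∀ s : ℂ, (w : ℝ) / 2 + 1 < s.re → M s = f s) ∧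
    ∀ s : ℂ, (w : ℝ) / 2 + 1 ≤ s.re → (s = (((w : ℝ) / 2 + 1 : ℝ) : ℂ) → Odd w) → meromorphicOrderAt M s = 0

lemma order_zeta {s : ℂ} (h1 : 1 ≤ s.re) (h2 : s ≠ 1) : meromorphicOrderAt riemannZeta s = 0 := by
  have hd : DifferentiableOn ℂ riemannZeta {s | s ≠ 1} := fun s hs =>
    (differentiableAt_riemannZeta hs).differentiableWithinAt
  have ha : AnalyticAt ℂ riemannZeta s := hd.analyticAt (isOpen_ne.mem_nhds h2)
  rw [← tendsto_ne_zero_iff_meromorphicOrderAt_eq_zero ha.meromorphicAt]
  exact ⟨riemannZeta s, riemannZeta_ne_zero_of_one_le_re h1,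
    ha.continuousAt.tendsto.mono_left nhdsWithin_le_nhds⟩

theorem lclass_cont : LClass Cont where
  congr w f g h hf := by
    obtain ⟨M, h1, h2, h3⟩ := hf
    exact ⟨M, h1, fun s hs => (h2 s hs).trans (h s hs), h3⟩
  mul w f g hf hg := by
    obtain ⟨M, h1, h2, h3⟩ := hf
    obtain ⟨N, h4, h5, h6⟩ := hg
    refine ⟨M * N, fun s => (h1 s).mul (h4 s), fun s hs => ?_, fun s hs hw => ?_⟩
    · rw [Pi.mul_apply, h2 s hs, h5 s hs]
    · rw [meromorphicOrderAt_mul (h1 s) (h4 s), h3 s hs hw, h6 s hs hw, add_zero]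
  inv w f hf := by
    obtain ⟨M, h1, h2, h3⟩ := hf
    refine ⟨M⁻¹, fun s => (h1 s).inv, fun s hs => ?_, fun s hs hw => ?_⟩
    · rw [Pi.inv_apply, h2 s hs]
    · rw [meromorphicOrderAt_inv, h3 s hs hw, neg_zero]
  shift w f := by
    have key : ∀ s : ℂ, ((w + 2 : ℕ) : ℝ) / 2 + 1 ≤ s.re ↔ (w : ℝ) / 2 + 1 ≤ (s - 1).re := by
      intro s
      rw [Complex.sub_re, Complex.one_re]
      push_cast
      constructor <;> intro h <;> linarith
    have key2 : ∀ s : ℂ, ((w + 2 : ℕ) : ℝ) / 2 + 1 < s.re ↔ (w : ℝ) / 2 + 1 < (s - 1).re := by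
      intro s
      rw [Complex.sub_re, Complex.one_re]
      push_cast
      constructor <;> intro h <;> linarith
    have key3 : ∀ s : ℂ, s = ((((w + 2 : ℕ) : ℝ) / 2 + 1 : ℝ) : ℂ) ↔ s - 1 = (((w : ℝ) / 2 + 1 : ℝ) : ℂ) := by
      intro s
      rw [sub_eq_iff_eq_add]
      have : ((((w + 2 : ℕ) : ℝ) / 2 + 1 : ℝ) : ℂ) = (((w : ℝ) / 2 + 1 : ℝ) : ℂ) + 1 := by
        push_cast
        ring
      rw [this]
    have key4 : Odd (w + 2) ↔ Odd w := by
      rw [Nat.odd_add]
      simp
    constructor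
    · rintro ⟨M, h1, h2, h3⟩
      refine ⟨fun s => M (s + 1), Meromorphic.meromorphic_fun_comp_add_const_iff_meromorphic.mpr h1,
        fun s hs => ?_, fun s hs hw => ?_⟩
      · have h4 := h2 (s + 1) ((key2 _).mpr (by rw [add_sub_cancel_right]; exact hs))
        simpa using h4
      · have h4 := h3 (s + 1) ((key _).mpr (by rw [add_sub_cancel_right]; exact hs)) (fun h => by
          rw [key4]
          apply hw
          rw [key3, add_sub_cancel_right] at h
          exact h)
        have h5 := meromorphicOrderAt_comp_add_const_eq_meromorphicOrderAt (x := s) (c := 1) (f := M)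
        exact h5.trans h4
    · rintro ⟨M, h1, h2, h3⟩
      refine ⟨fun s => M (s - 1), Meromorphic.meromorphic_fun_comp_sub_const_iff_meromorphic.mpr h1,
        fun s hs => ?_, fun s hs hw => ?_⟩
      · exact h2 (s - 1) ((key2 _).mp hs)
      · have h4 := h3 (s - 1) ((key _).mp hs) (fun h => by
          rw [← key4]
          exact hw ((key3 _).mpr h))
        have h5 := meromorphicOrderAt_comp_sub_const_eq_meromorphicOrderAt (x := s) (c := 1) (f := M)
        exact h5.trans h4
  one w := by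
    classical
    refine ⟨fun _ => 1, fun s => MeromorphicAt.const 1 s, fun s _ => rfl, fun s _ _ => ?_⟩
    rw [meromorphicOrderAt_const, if_neg one_ne_zero]
  zeta := by
    refine ⟨riemannZeta, Pool.Agent.TH958.An.zeta_mero, fun _ _ => rfl, fun s hs hw => ?_⟩
    apply order_zeta
    · rw [Nat.cast_zero, zero_div, zero_add] at hs
      exact hs
    · rintro rfl
      have h1 := hw (by push_cast; ring)
      exact Nat.not_odd_zero h1

end Pool.Agent.P8H64.ZF
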