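import Pool.Agent.P8H64.ZF.Comb
import Pool.Agent.P8H64.ZF.Edge

/-!
# Classes of L-functions of all weights are closed under closed-open decompositions
-/

set_option autoImplicit false

open CategoryTheory AlgebraicGeometry Pool.Agent.Y116.UV Pool.Agent.P8H64.GH Pool.Agent.Z125.UN

namespace Pool.Agent.P8H64.ZF

/-- The theorem of Deligne (Weil II), with the boundedness of the number of eigenvalues: the numbers of
points of all (separated) schemes of finite type over `ℤ` are given by Weil numbers of weights `0, 1, 2, …`
whose number is bounded independently of the prime. -/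
def Deligne (sep : Prop) : Prop := ∀ X : Sch ℤ, FT sep X → ∃ C m, WeilData (cntC X) C m

variable {sep : Prop}

lemma ft_closed {Z X : Sch ℤ} (i : Z ⟶ X) (hi : IsClosedImmersion i.left) (hX : FT sep X) : FT sep Z where
  locallyOfFiniteType := by
    have := hX.locallyOfFiniteType
    rw [← Over.w i]
    infer_instance
  quasiCompact := by
    have := hX.quasiCompact
    rw [← Over.w i]
    infer_instance
  separated h := by
    have := hX.separated h
    rw [← Over.w i]
    infer_instance

lemma ft_qaff (A : Type) [CommRing A] [Algebra ℤ A] [Algebra.FiniteType ℤ A] {m : ℕ} (f : Fin m → A)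
    (U : Sch ℤ) (j : U ⟶ aff ℤ A) (hj : IsOpenImmersion j.left)
    (h : Set.range j.left = {x : PrimeSpectrum A | ∃ l, f l ∉ x.asIdeal}) : FT sep U := by
  have h1 : IsCompact (Set.range j.left) := by
    rw [h]
    have h2 : {x : PrimeSpectrum A | ∃ l, f l ∉ x.asIdeal} =
        ⋃ l, (PrimeSpectrum.basicOpen (f l) : Set (PrimeSpectrum A)) := by
      ext x
      rw [Set.mem_iUnion]
      rfl
    rw [h2]
    exact isCompact_iUnion fun l => PrimeSpectrum.isCompact_basicOpen (f l)
  have h3 : CompactSpace U.left := by
    rw [← isCompact_univ_iff, j.left.isOpenEmbedding.isInducing.isCompact_iff, Set.image_univ]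
    exact h1
  have h4 := ft_aff (R := ℤ) (A := A) sep
  exact
    { locallyOfFiniteType := by
        have := h4.locallyOfFiniteType
        rw [← Over.w j]
        infer_instance
      quasiCompact := (quasiCompact_iff_compactSpace U.hom).mpr h3
      separated := fun hs => by
        have := h4.separated hs
        rw [← Over.w j]
        infer_instance }

theorem bnd_pl {𝓛 : ℕ → (ℂ → ℂ) → Prop} (h𝓛 : LClass 𝓛) (hD : Deligne sep) :
    Bnd sep fun X => PL 𝓛 (cntC X) := by
  refine bnd_mk ?_ ?_ ?_ ?_ ?_ ?_ ?_
  · rintro X Y _ ⟨e⟩ h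
    have h1 : cntC Y = cntC X := by
      funext p k
      rw [cntC, cntC, cnt_iso e]
    rw [h1]
    exact h
  · intro Z X U i j hX h hZ hU
    have h1 : cntC X = fun p k => cntC Z p k + cntC U p k := by
      funext p k
      rw [cntC, cntC, cntC, cnt_triple i j hX h p k]
      push_cast
      rfl
    rw [h1]
    exact pl_add h𝓛 hZ hU (hD Z (ft_closed i h.closed hX))
  · intro Z X U i j hX h hZ hX2
    have h1 : cntC U = fun p k => cntC X p k - cntC Z p k := by
      funext p k
      rw [cntC, cntC, cntC, cnt_triple i j hX h p k]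
      push_cast
      ring
    rw [h1]
    exact pl_sub h𝓛 hX2 hZ (hD X hX)
  · intro Z X U i j hX h hX2 hU
    have h1 : cntC Z = fun p k => cntC X p k - cntC U p k := by
      funext p k
      rw [cntC, cntC, cntC, cnt_triple i j hX h p k]
      push_cast
      ring
    rw [h1]
    exact pl_sub h𝓛 hX2 hU (hD X hX)
  · have h1 : cntC (aff ℤ ℤ) = fun _ _ => 1 := by
      funext p k
      rw [cntC, cnt_point, Nat.cast_one]
    rw [h1]
    exact pl_one h𝓛
  · intro A _ _ _ m f U j hj h
    rcases m with _ | r
    · -- both are empty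
      have h1 : ∀ p k, cnt (aff ℤ (Jou f)) p k = 0 ∧ cnt U p k = 0 := by
        intro p k
        have h2 : cnt U p k = 0 := by
          rw [cnt, Nat.card_congr (pt_open (F := FF p k) A f U j h).some]
          have : IsEmpty {φ : A →+* FF p k // ∃ l, φ (f l) ≠ 0} := ⟨fun φ => by
            obtain ⟨l, _⟩ := φ.2
            exact l.elim0⟩
          exact Nat.card_of_isEmpty
        have h3 := cnt_jou A 0 f U j hj h p k
        rw [h2, mul_zero] at h3
        exact ⟨(Nat.mul_eq_zero.mp h3).resolve_left (pow_ne_zero _ p.2.ne_zero), h2⟩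
      have h2 : cntC (aff ℤ (Jou f)) = cntC U := by
        funext p k
        rw [cntC, cntC, (h1 p k).1, (h1 p k).2]
      rw [h2]
    · have h1 : cntC (aff ℤ (Jou f)) =
          fun (p : Nat.Primes) (k : ℕ) => (((p : ℕ) : ℂ) ^ r) ^ (k + 1) * cntC U p k := by
        rw [cntC_jou A (r + 1) f U j hj h]
        funext p k
        have h2 : (((r + 1 : ℕ) : ℤ) - 1) = (r : ℤ) := by
          push_cast
          ring
        rw [h2, zpow_natCast]
      rw [h1]
      exact (pl_shift h𝓛 (hD U (ft_qaff A f U j hj h)) r).symm
  · intro A _ _ _ h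
    rw [cntC_laurent] at h
    exact pl_torus h𝓛 h

end Pool.Agent.P8H64.ZF
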