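import Pool.Agent.P8H64.ZF.Ser
import Pool.Agent.TH958.An.Zeta

/-!
# The zeta function of a point
-/

set_option autoImplicit false

open Complex

namespace Pool.Agent.P8H64.ZF

lemma term_one (s : ℂ) (x : Nat.Primes × ℕ) :
    term (fun _ _ => 1) s x = (((x.1 : ℕ) : ℂ) ^ (-s)) ^ (x.2 + 1) / ((x.2 : ℂ) + 1) := by
  have h1 : (-(((x.2 : ℂ) + 1) * s)) = ((x.2 + 1 : ℕ) : ℂ) * (-s) := by
    push_cast
    ring
  rw [term, h1, Complex.cpow_nat_mul]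
  ring

lemma norm_term_one {s : ℂ} (x : Nat.Primes × ℕ) :
    ‖term (fun _ _ => 1) s x‖ = (((x.1 : ℕ) : ℝ) ^ (-s.re)) ^ (x.2 + 1) / ((x.2 : ℝ) + 1) := by
  have h4 : ‖(x.2 : ℂ) + 1‖ = (x.2 : ℝ) + 1 := by
    have h3 : ((x.2 : ℂ) + 1) = (((x.2 : ℝ) + 1 : ℝ) : ℂ) := by push_cast; rfl
    rw [h3, Complex.norm_real, Real.norm_of_nonneg (by positivity)]
  rw [term_one, norm_div, norm_pow, Complex.norm_natCast_cpow_of_pos x.1.2.pos, Complex.neg_re, h4]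

/-- absolute convergence to the right of `1` -/
lemma conv_one {σ : ℝ} (hσ : 1 < σ) : Conv (fun _ _ => 1) σ := by
  have h2 : ∀ p : Nat.Primes, 0 ≤ ((p : ℕ) : ℝ) ^ (-σ) := fun p => Real.rpow_nonneg (pr_pos p).le _
  have h3 : ∀ p : Nat.Primes, ((p : ℕ) : ℝ) ^ (-σ) ≤ 1 / 2 := by
    intro p
    have h6 : (2 : ℝ) ≤ ((p : ℕ) : ℝ) := by exact_mod_cast p.2.two_le
    calc ((p : ℕ) : ℝ) ^ (-σ) ≤ (2 : ℝ) ^ (-σ) :=
          Real.rpow_le_rpow_of_nonpos (by norm_num) h6 (by linarith)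
      _ ≤ (2 : ℝ) ^ (-1 : ℝ) := Real.rpow_le_rpow_of_exponent_le (by norm_num) (by linarith)
      _ = 1 / 2 := by rw [Real.rpow_neg_one]; norm_num
  have h4 : Summable fun p : Nat.Primes => ((p : ℕ) : ℝ) ^ (-σ) :=
    Nat.Primes.summable_rpow.mpr (by linarith)
  have h5 : Summable fun x : Nat.Primes × ℕ => (((x.1 : ℕ) : ℝ) ^ (-σ)) * (1 / 2) ^ x.2 :=
    h4.mul_of_nonneg summable_geometric_two h2 (fun k => by positivity)
  refine Summable.of_nonneg_of_le (fun _ => norm_nonneg _) (fun x => ?_) h5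
  rw [norm_term_one, Complex.ofReal_re]
  calc (((x.1 : ℕ) : ℝ) ^ (-σ)) ^ (x.2 + 1) / ((x.2 : ℝ) + 1)
      ≤ (((x.1 : ℕ) : ℝ) ^ (-σ)) ^ (x.2 + 1) :=
        div_le_self (pow_nonneg (h2 _) _) (by linarith [Nat.cast_nonneg (α := ℝ) x.2])
    _ = ((x.1 : ℕ) : ℝ) ^ (-σ) * (((x.1 : ℕ) : ℝ) ^ (-σ)) ^ x.2 := by rw [pow_succ]; ring
    _ ≤ ((x.1 : ℕ) : ℝ) ^ (-σ) * (1 / 2) ^ x.2 :=
        mul_le_mul_of_nonneg_left (pow_le_pow_left₀ (h2 _) (h3 _) _) (h2 _)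

/-- the zeta function of a point is the Riemann zeta function -/
lemma exp_ser_one {s : ℂ} (hs : 1 < s.re) : exp (ser (fun _ _ => 1) s) = riemannZeta s := by
  rw [← riemannZeta_eulerProduct_exp_log hs]
  congr 1
  have h1 : Summable (term (fun _ _ => 1) s) := conv_summable (conv_one hs) le_rfl
  rw [ser, h1.tsum_prod]
  refine tsum_congr fun p => ?_
  have h2 : ‖((p : ℕ) : ℂ) ^ (-s)‖ < 1 := by
    rw [Complex.norm_natCast_cpow_of_pos p.2.pos, Complex.neg_re]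
    exact Real.rpow_lt_one_of_one_lt_of_neg (by exact_mod_cast p.2.one_lt) (by linarith)
  have h3 := Complex.hasSum_taylorSeries_neg_log h2
  have h4 : HasSum (fun k : ℕ => (((p : ℕ) : ℂ) ^ (-s)) ^ (k + 1) / ((k : ℂ) + 1))
      (-Complex.log (1 - ((p : ℕ) : ℂ) ^ (-s))) := by
    have h5 := (hasSum_nat_add_iff' 1).mpr h3
    simp only [Finset.range_one, Finset.sum_singleton, pow_zero, Nat.cast_zero, div_zero, sub_zero] at h5
    refine h5.congr_fun ?_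
    intro k
    push_cast
    rfl
  rw [← h4.tsum_eq]
  exact tsum_congr fun k => term_one s (p, k)

lemma mero_one : Mero fun _ _ => 1 := by
  refine ⟨2, conv_one (by norm_num), riemannZeta, Pool.Agent.TH958.An.zeta_mero, fun s hs => ?_⟩
  exact (exp_ser_one (by linarith)).symm

end Pool.Agent.P8H64.ZF
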