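import Pool.Agent.P8H64.ZF.Cnt
import Pool.Agent.P8H64.ZF.One

/-!
# Meromorphic continuation of the zeta function is closed under closed-open decompositions
-/

set_option autoImplicit false

open CategoryTheory AlgebraicGeometry Pool.Agent.Y116.UV Pool.Agent.P8H64.GH Pool.Agent.Z125.UN

namespace Pool.Agent.P8H64.ZF

/-- the number of points, as complex numbers -/
noncomputable def cntC (X : Sch ℤ) (p : Nat.Primes) (k : ℕ) : ℂ := (cnt X p k : ℂ)

lemma cntC_jou (A : Type) [CommRing A] [Algebra ℤ A] [Algebra.FiniteType ℤ A] (m : ℕ)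
    (f : Fin m → A) (U : Sch ℤ) (j : U ⟶ aff ℤ A) (hj : IsOpenImmersion j.left)
    (h : Set.range j.left = {x : PrimeSpectrum A | ∃ l, f l ∉ x.asIdeal}) :
    cntC (aff ℤ (Jou f)) = fun (p : Nat.Primes) (k : ℕ) => (((p : ℕ) : ℂ) ^ ((m : ℤ) - 1)) ^ (k + 1) * cntC U p k := by
  funext p k
  have h1 : (((p : ℕ) : ℂ) ^ (k + 1)) * cntC (aff ℤ (Jou f)) p k = (((p : ℕ) : ℂ) ^ (k + 1)) ^ m * cntC U p k := by
    have := cnt_jou A m f U j hj h p k
    rw [cntC, cntC]
    exact_mod_cast this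
  have h2 : ((p : ℕ) : ℂ) ^ (k + 1) ≠ 0 := pow_ne_zero _ (pr_ne p)
  have h3 : (((p : ℕ) : ℂ) ^ ((m : ℤ) - 1)) ^ (k + 1) = (((p : ℕ) : ℂ) ^ (k + 1))⁻¹ * (((p : ℕ) : ℂ) ^ (k + 1)) ^ m := by
    rw [zpow_sub₀ (pr_ne p), zpow_natCast, zpow_one, div_pow, div_eq_inv_mul, ← pow_mul, ← pow_mul, mul_comm m]
  rw [h3, mul_assoc, ← h1, inv_mul_cancel_left₀ h2]

lemma cntC_laurent (A : Type) [CommRing A] [Algebra ℤ A] :
    cntC (aff ℤ (LaurentPolynomial A)) = fun (p : Nat.Primes) (k : ℕ) => (((p : ℕ) : ℂ) ^ (k + 1) - 1) * cntC (aff ℤ A) p k := by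
  funext p k
  have h1 : cntC (aff ℤ (LaurentPolynomial A)) p k + cntC (aff ℤ A) p k =
      ((p : ℕ) : ℂ) ^ (k + 1) * cntC (aff ℤ A) p k := by
    have := cnt_laurent A p k
    rw [cntC, cntC]
    exact_mod_cast this
  rw [sub_mul, one_mul, ← h1, add_sub_cancel_right]

/-- the zeta function of `X` has a meromorphic continuation to the plane -/
def ZMero (X : Sch ℤ) : Prop := Mero (cntC X)

theorem bnd_zmero (sep : Prop) : Bnd sep ZMero := by
  refine bnd_mk ?_ ?_ ?_ ?_ ?_ ?_ ?_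
  · rintro X Y _ ⟨e⟩ h
    have h1 : cntC Y = cntC X := by
      funext p k
      rw [cntC, cntC, cnt_iso e]
    rw [ZMero, h1]
    exact h
  · intro Z X U i j hX h hZ hU
    have h1 : cntC X = fun p k => cntC Z p k + cntC U p k := by
      funext p k
      rw [cntC, cntC, cntC, cnt_triple i j hX h p k]
      push_cast
      rfl
    rw [ZMero, h1]
    exact mero_add hZ hU
  · intro Z X U i j hX h hZ hX2
    have h1 : cntC U = fun p k => cntC X p k - cntC Z p k := by
      funext p k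
      rw [cntC, cntC, cntC, cnt_triple i j hX h p k]
      push_cast
      ring
    rw [ZMero, h1]
    exact mero_sub hX2 hZ
  · intro Z X U i j hX h hX2 hU
    have h1 : cntC Z = fun p k => cntC X p k - cntC U p k := by
      funext p k
      rw [cntC, cntC, cntC, cnt_triple i j hX h p k]
      push_cast
      ring
    rw [ZMero, h1]
    exact mero_sub hX2 hU
  · have h1 : cntC (aff ℤ ℤ) = fun _ _ => 1 := by
      funext p k
      rw [cntC, cnt_point, Nat.cast_one]
    rw [ZMero, h1]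
    exact mero_one
  · intro A _ _ _ m f U j hj h
    rw [ZMero, ZMero, cntC_jou A m f U j hj h]
    exact (mero_shift_iff _).symm
  · intro A _ _ _ h
    rw [ZMero, cntC_laurent] at h
    exact mero_torus h

theorem presents_int : Presents ({0, 1} : Set ℤ) := presents_zero_one fun n => ⟨n, Int.cast_id⟩

end Pool.Agent.P8H64.ZF
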