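import Pool.Agent.P8H64.ZF.Aff
import Pool.Agent.P8H64.GH.Mk

/-!
# The numbers of points over the finite fields
-/

set_option autoImplicit false

open CategoryTheory AlgebraicGeometry Pool.Agent.Y116.UV

namespace Pool.Agent.P8H64.ZF

instance factPrime (p : Nat.Primes) : Fact ((p : ℕ)).Prime := ⟨p.2⟩

/-- the field with `p ^ (k + 1)` elements -/
abbrev FF (p : Nat.Primes) (k : ℕ) : Type := GaloisField (p : ℕ) (k + 1)

lemma card_FF (p : Nat.Primes) (k : ℕ) : Nat.card (FF p k) = (p : ℕ) ^ (k + 1) :=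
  GaloisField.card (p : ℕ) (k + 1) (Nat.succ_ne_zero k)

instance finite_FF (p : Nat.Primes) (k : ℕ) : Finite (FF p k) := by
  apply Nat.finite_of_card_ne_zero
  rw [card_FF]
  exact pow_ne_zero _ p.2.ne_zero

/-- the number of points of the scheme `X` with values in the field with `p ^ (k + 1)` elements -/
noncomputable def cnt (X : Sch ℤ) (p : Nat.Primes) (k : ℕ) : ℕ := Nat.card (Pt X (FF p k))

variable {sep : Prop}

lemma finite_pt {F : Type} [Field F] [Finite F] (X : Sch ℤ) (hX : FT sep X) : Finite (Pt X F) := by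
  refine of_affine' (R := ℤ) (sep := sep) (P := fun X => Finite (Pt X F)) ?_ ?_ ?_ X hX
  · rintro X Y _ ⟨e⟩ h
    exact Finite.of_equiv _ (pt_iso e)
  · intro Z X U i j _ h hZ hU
    exact Finite.of_equiv _ (Equiv.ofBijective _ (pt_triple (F := F) i j h))
  · intro A _ _ _
    have := finite_hom (F := F) A
    exact Finite.of_equiv _ (pt_aff (F := F) A).symm

lemma cnt_iso {X Y : Sch ℤ} (e : X ≅ Y) : cnt X = cnt Y := by
  funext p k
  exact Nat.card_congr (pt_iso e)

lemma cnt_triple {Z X U : Sch ℤ} (i : Z ⟶ X) (j : U ⟶ X) (hX : FT sep X) (h : IsTriple i j)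
    (p : Nat.Primes) (k : ℕ) : cnt X p k = cnt Z p k + cnt U p k := by
  have h1 := finite_pt (F := FF p k) X hX
  have hb := pt_triple (F := FF p k) i j h
  have h2 : Finite (Pt Z (FF p k) ⊕ Pt U (FF p k)) := Finite.of_equiv _ (Equiv.ofBijective _ hb).symm
  have h3 : Finite (Pt Z (FF p k)) := Finite.of_injective (Sum.inl : _ → Pt Z (FF p k) ⊕ Pt U (FF p k))
    Sum.inl_injective
  have h4 : Finite (Pt U (FF p k)) := Finite.of_injective (Sum.inr : _ → Pt Z (FF p k) ⊕ Pt U (FF p k))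
    Sum.inr_injective
  rw [cnt, ← Nat.card_congr (Equiv.ofBijective _ hb), Nat.card_sum]
  rfl

lemma cnt_aff (A : Type) [CommRing A] [Algebra ℤ A] (p : Nat.Primes) (k : ℕ) :
    cnt (aff ℤ A) p k = Nat.card (A →+* FF p k) := Nat.card_congr (pt_aff A)

lemma cnt_point (p : Nat.Primes) (k : ℕ) : cnt (aff ℤ ℤ) p k = 1 := by
  rw [cnt_aff]
  have : Subsingleton (ℤ →+* FF p k) := inferInstance
  have : Nonempty (ℤ →+* FF p k) := ⟨Int.castRingHom _⟩
  exact Nat.card_eq_one_iff_unique.mpr ⟨inferInstance, inferInstance⟩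

lemma cnt_jou (A : Type) [CommRing A] [Algebra ℤ A] [Algebra.FiniteType ℤ A] (m : ℕ)
    (f : Fin m → A) (U : Sch ℤ) (j : U ⟶ aff ℤ A) (hj : IsOpenImmersion j.left)
    (h : Set.range j.left = {x : PrimeSpectrum A | ∃ l, f l ∉ x.asIdeal}) (p : Nat.Primes) (k : ℕ) :
    (p : ℕ) ^ (k + 1) * cnt (aff ℤ (Jou f)) p k = ((p : ℕ) ^ (k + 1)) ^ m * cnt U p k := by
  rw [cnt_aff, cnt, Nat.card_congr (pt_open (F := FF p k) A f U j h).some, ← card_FF, card_jou f]

lemma cnt_laurent (A : Type) [CommRing A] [Algebra ℤ A] (p : Nat.Primes) (k : ℕ) :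
    cnt (aff ℤ (LaurentPolynomial A)) p k + cnt (aff ℤ A) p k = (p : ℕ) ^ (k + 1) * cnt (aff ℤ A) p k := by
  rw [cnt_aff, cnt_aff, ← card_FF, card_laurent]

end Pool.Agent.P8H64.ZF
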