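import Pool.Agent.P8H64.ZF.BndZ
import Pool.Agent.P8H64.GH.Tfae

/-!
# Numbers of invertible matrices with prescribed zeros, of nondegenerate weighted graphs, and of solutions of
trilinear equations over finite fields
-/

set_option autoImplicit false

open CategoryTheory AlgebraicGeometry Pool.Agent.Y116.UV Pool.Agent.P8H64.GH Pool.Agent.Z125.UN

namespace Pool.Agent.P8H64.ZF

variable {F : Type} [Field F]

/-- ring homomorphisms from a polynomial ring over `ℤ` -/
noncomputable def homMv (σ : Type) : (MvPolynomial σ ℤ →+* F) ≃ (σ → F) where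
  toFun φ s := φ (MvPolynomial.X s)
  invFun v := (MvPolynomial.aeval v : MvPolynomial σ ℤ →ₐ[ℤ] F)
  left_inv φ := by
    apply MvPolynomial.ringHom_ext
    · intro r
      exact (map_intCast _ r).trans (map_intCast φ r).symm
    · intro s
      exact MvPolynomial.aeval_X _ s
  right_inv v := by
    funext s
    exact MvPolynomial.aeval_X _ s

lemma hom_aeval {σ : Type} (φ : MvPolynomial σ ℤ →+* F) (f : MvPolynomial σ ℤ) :
    φ f = MvPolynomial.aeval (fun s => φ (MvPolynomial.X s)) f :=
  (congrArg (fun g : MvPolynomial σ ℤ →+* F => g f) ((homMv (F := F) σ).left_inv φ)).symm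

/-- the points where `f` does not vanish -/
lemma card_away {σ : Type} (f : MvPolynomial σ ℤ) :
    Nat.card (Localization.Away f →+* F) = Nat.card {v : σ → F // MvPolynomial.aeval v f ≠ 0} := by
  let T : (Localization.Away f →+* F) → {v : σ → F // MvPolynomial.aeval v f ≠ 0} := fun φ =>
    ⟨homMv σ (φ.comp (algebraMap _ _)), by
      have h1 := hom_aeval (φ.comp (algebraMap (MvPolynomial σ ℤ) (Localization.Away f))) f
      have h2 : IsUnit (φ.comp (algebraMap (MvPolynomial σ ℤ) (Localization.Away f)) f) :=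
        (IsLocalization.Away.algebraMap_isUnit f).map φ
      rw [h1] at h2
      exact h2.ne_zero⟩
  refine Nat.card_congr (Equiv.ofBijective T ⟨fun φ ψ h => ?_, fun v => ?_⟩)
  · have h1 : φ.comp (algebraMap (MvPolynomial σ ℤ) (Localization.Away f)) =
        ψ.comp (algebraMap (MvPolynomial σ ℤ) (Localization.Away f)) :=
      (homMv (F := F) σ).injective (congrArg Subtype.val h)
    exact IsLocalization.ringHom_ext (Submonoid.powers f) h1
  · have hu : IsUnit ((homMv (F := F) σ).symm v.1 f) := (isUnit_iff_ne_zero.mpr v.2)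
    refine ⟨IsLocalization.Away.lift f hu, Subtype.ext ?_⟩
    change homMv σ ((IsLocalization.Away.lift f hu).comp (algebraMap _ _)) = v.1
    have h1 : (IsLocalization.Away.lift f hu : Localization.Away f →+* F).comp
        (algebraMap (MvPolynomial σ ℤ) (Localization.Away f)) = (homMv (F := F) σ).symm v.1 :=
      IsLocalization.Away.lift_comp f hu
    rw [h1, Equiv.apply_symm_apply]

/-- the points where `f` vanishes -/
lemma card_quot {σ : Type} (f : MvPolynomial σ ℤ) :
    Nat.card (MvPolynomial σ ℤ ⧸ Ideal.span {f} →+* F) =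
      Nat.card {v : σ → F // MvPolynomial.aeval v f = 0} := by
  let T : (MvPolynomial σ ℤ ⧸ Ideal.span {f} →+* F) → {v : σ → F // MvPolynomial.aeval v f = 0} := fun φ =>
    ⟨homMv σ (φ.comp (Ideal.Quotient.mk _)), by
      have h1 := hom_aeval (φ.comp (Ideal.Quotient.mk (Ideal.span {f}))) f
      have h2 : (φ.comp (Ideal.Quotient.mk (Ideal.span {f}))) f = 0 := by
        rw [RingHom.comp_apply, Ideal.Quotient.eq_zero_iff_mem.mpr (Ideal.mem_span_singleton_self f), map_zero]
      rw [h1] at h2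
      exact h2⟩
  refine Nat.card_congr (Equiv.ofBijective T ⟨fun φ ψ h => ?_, fun v => ?_⟩)
  · have h1 : φ.comp (Ideal.Quotient.mk (Ideal.span {f})) = ψ.comp (Ideal.Quotient.mk (Ideal.span {f})) :=
      (homMv (F := F) σ).injective (congrArg Subtype.val h)
    exact Ideal.Quotient.ringHom_ext h1
  · have hk : ∀ a ∈ Ideal.span {f}, (homMv (F := F) σ).symm v.1 a = 0 := by
      have h1 : Ideal.span {f} ≤ RingHom.ker ((homMv (F := F) σ).symm v.1) := by
        rw [Ideal.span_le, Set.singleton_subset_iff]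
        exact v.2
      exact fun a ha => h1 ha
    refine ⟨Ideal.Quotient.lift _ _ hk, Subtype.ext ?_⟩
    change homMv σ ((Ideal.Quotient.lift _ _ hk).comp (Ideal.Quotient.mk _)) = v.1
    have h1 : (Ideal.Quotient.lift _ _ hk).comp (Ideal.Quotient.mk (Ideal.span {f})) =
        (homMv (F := F) σ).symm v.1 := Ideal.Quotient.lift_comp_mk _ _ _
    rw [h1, Equiv.apply_symm_apply]

lemma aeval_kirchhoff {n : ℕ} (G : SimpleGraph (Fin (n + 1))) (v : G.edgeSet → F) :
    MvPolynomial.aeval v (kirchhoff ℤ G) = (lap G v).det := by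
  let φ : MvPolynomial G.edgeSet ℤ →ₐ[ℤ] F := MvPolynomial.aeval v
  have h1 : φ (kirchhoff ℤ G) = (φ.mapMatrix (lap G MvPolynomial.X)).det := AlgHom.map_det φ _
  have h2 : φ.mapMatrix (lap G MvPolynomial.X) = lap G v := by
    ext i j
    change φ (lap G MvPolynomial.X i j) = lap G v i j
    rw [← lap_map φ G]
    have h3 : (fun s => φ (MvPolynomial.X s)) = v := by
      funext s
      exact MvPolynomial.aeval_X _ s
    rw [h3]
  rw [h2] at h1
  exact h1

lemma aeval_sparseDet {n : ℕ} (S : Finset (Fin n × Fin n)) (v : S → F) :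
    MvPolynomial.aeval v (sparseDet ℤ S) = (sparse S v).det := by
  let φ : MvPolynomial S ℤ →ₐ[ℤ] F := MvPolynomial.aeval v
  have h1 : φ (sparseDet ℤ S) = (φ.mapMatrix (sparse S MvPolynomial.X)).det := AlgHom.map_det φ _
  have h2 : φ.mapMatrix (sparse S MvPolynomial.X) = sparse S v := by
    ext i j
    change φ (sparse S MvPolynomial.X i j) = sparse S v i j
    unfold sparse
    rw [Matrix.of_apply, Matrix.of_apply]
    split_ifs
    · exact MvPolynomial.aeval_X _ _
    · exact map_zero φ
  rw [h2] at h1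
  exact h1

lemma card_sparse {n : ℕ} (S : Finset (Fin n × Fin n)) : Nat.card {v : S → F // (sparse S v).det ≠ 0} =
    Nat.card {M : Matrix (Fin n) (Fin n) F // M.det ≠ 0 ∧ ∀ i j, (i, j) ∉ S → M i j = 0} := by
  refine Nat.card_congr
    { toFun := fun v => ⟨sparse S v.1, v.2, fun i j h => ?_⟩
      invFun := fun M => ⟨fun s => M.1 s.1.1 s.1.2, ?_⟩
      left_inv := fun v => Subtype.ext (funext fun s => ?_)
      right_inv := fun M => Subtype.ext (Matrix.ext fun i j => ?_) }
  · rw [sparse, Matrix.of_apply, dif_neg h]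
  · have h1 : sparse S (fun s => M.1 s.1.1 s.1.2) = M.1 := by
      ext i j
      rw [sparse, Matrix.of_apply]
      split_ifs with h
      · rfl
      · exact (M.2.2 i j h).symm
    rw [h1]
    exact M.2.1
  · change sparse S v.1 s.1.1 s.1.2 = v.1 s
    rw [sparse, Matrix.of_apply, dif_pos s.2]
  · change sparse S (fun s => M.1 s.1.1 s.1.2) i j = M.1 i j
    rw [sparse, Matrix.of_apply]
    split_ifs with h
    · rfl
    · exact (M.2.2 i j h).symm

/-- The number of invertible matrices over the field with `p ^ (k + 1)` elements with zeros outside of `S`. -/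
noncomputable def invCount {n : ℕ} (S : Finset (Fin n × Fin n)) (p : Nat.Primes) (k : ℕ) : ℂ :=
  (Nat.card {M : Matrix (Fin n) (Fin n) (FF p k) // M.det ≠ 0 ∧ ∀ i j, (i, j) ∉ S → M i j = 0} : ℕ)

/-- The number of the weightings of the edges of the graph `G` by elements of the field with `p ^ (k + 1)`
elements whose reduced Laplacian is invertible. -/
noncomputable def lapCount {n : ℕ} (G : SimpleGraph (Fin (n + 1))) (p : Nat.Primes) (k : ℕ) : ℂ :=
  (Nat.card {v : G.edgeSet → FF p k // (lap G v).det ≠ 0} : ℕ)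

/-- The number of the weightings whose reduced Laplacian is not invertible. -/
noncomputable def lapZero {n : ℕ} (G : SimpleGraph (Fin (n + 1))) (p : Nat.Primes) (k : ℕ) : ℂ :=
  (Nat.card {v : G.edgeSet → FF p k // (lap G v).det = 0} : ℕ)

/-- The number of solutions of `∑_{(i, j, l) ∈ H} x_i y_j z_l = 1` in the field with `p ^ (k + 1)`
elements. -/
noncomputable def triCount {a b c : ℕ} (H : Finset (Fin a × Fin b × Fin c)) (p : Nat.Primes) (k : ℕ) : ℂ :=
  (Nat.card {v : (Fin a → FF p k) × (Fin b → FF p k) × (Fin c → FF p k) //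
    ∑ h ∈ H, v.1 h.1 * v.2.1 h.2.1 * v.2.2 h.2.2 = 1} : ℕ)

lemma cntC_gl {n : ℕ} (S : Finset (Fin n × Fin n)) : cntC (aff ℤ (GLRing ℤ S)) = invCount S := by
  funext p k
  rw [cntC, cnt_aff, card_away, invCount, ← card_sparse]
  congr 1
  refine Nat.card_congr (Equiv.subtypeEquivRight fun v => ?_)
  rw [aeval_sparseDet]

lemma cntC_compl {n : ℕ} (G : SimpleGraph (Fin (n + 1))) : cntC (aff ℤ (CRing ℤ G)) = lapCount G := by
  funext p k
  rw [cntC, cnt_aff, card_away, lapCount]
  congr 1
  refine Nat.card_congr (Equiv.subtypeEquivRight fun v => ?_)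
  rw [aeval_kirchhoff]

lemma cntC_hyp {n : ℕ} (G : SimpleGraph (Fin (n + 1))) : cntC (aff ℤ (HRing ℤ G)) = lapZero G := by
  funext p k
  rw [cntC, cnt_aff, card_quot, lapZero]
  congr 1
  refine Nat.card_congr (Equiv.subtypeEquivRight fun v => ?_)
  rw [aeval_kirchhoff]

lemma cntC_trip {a b c : ℕ} (H : Finset (Fin a × Fin b × Fin c)) : cntC (aff ℤ (Trip ℤ H)) = triCount H := by
  funext p k
  rw [cntC, cnt_aff, card_quot, triCount]
  congr 1
  refine Nat.card_congr
    { toFun := fun v => ⟨(fun i => v.1 (Sum.inl i), fun j => v.1 (Sum.inr (Sum.inl j)),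
        fun l => v.1 (Sum.inr (Sum.inr l))), ?_⟩
      invFun := fun v => ⟨Sum.elim v.1.1 (Sum.elim v.1.2.1 v.1.2.2), ?_⟩
      left_inv := fun v => Subtype.ext (funext fun s => ?_)
      right_inv := fun v => rfl }
  · have h1 := v.2
    rw [map_sub, map_one, sub_eq_zero, map_sum] at h1
    rw [← h1]
    refine Finset.sum_congr rfl fun h _ => ?_
    rw [map_mul, map_mul, MvPolynomial.aeval_X, MvPolynomial.aeval_X, MvPolynomial.aeval_X]
  · rw [map_sub, map_one, sub_eq_zero, map_sum]
    refine (Finset.sum_congr rfl fun h _ => ?_).trans v.2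
    rw [map_mul, map_mul, MvPolynomial.aeval_X, MvPolynomial.aeval_X, MvPolynomial.aeval_X]
    rfl
  · rcases s with i | j | l <;> rfl

/-- The list of the statements, for a property `Q` of the numbers of points. -/
def Crit (sep : Prop) (Q : (Nat.Primes → ℕ → ℂ) → Prop) : List Prop :=
  [∀ X : Sch ℤ, FT sep X → Q (cntC X),
    ∀ X : Sch ℤ, FT sep X → Smooth X.hom → Q (cntC X),
    ∀ (n : ℕ) (S : Finset (Fin n × Fin n)), Q (invCount S),
    ∀ (n : ℕ) (G : SimpleGraph (Fin (n + 1))), Q (lapCount G),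
    ∀ (n : ℕ) (G : SimpleGraph (Fin (n + 1))), ConeSplit G → Q (lapCount G),
    ∀ (n : ℕ) (G : SimpleGraph (Fin (n + 1))), Q (lapZero G),
    ∀ (n : ℕ) (G : SimpleGraph (Fin (n + 1))), ConeSplit G → Q (lapZero G),
    ∀ (a b c : ℕ) (H : Finset (Fin a × Fin b × Fin c)), Q (triCount H)]

theorem crit_tfae {sep : Prop} {Q : (Nat.Primes → ℕ → ℂ) → Prop} (h : Bnd sep fun X => Q (cntC X)) :
    (Crit sep Q).TFAE := by
  have h1 := tfae_for h presents_int
  have e3 : ForSparse ℤ (fun X => Q (cntC X)) ↔ ∀ (n : ℕ) (S : Finset (Fin n × Fin n)), Q (invCount S) := by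
    refine forall_congr' fun n => forall_congr' fun S => ?_
    change Q _ ↔ _
    rw [cntC_gl]
  have e4 : ForCompl ℤ (fun X => Q (cntC X)) ↔ ∀ (n : ℕ) (G : SimpleGraph (Fin (n + 1))), Q (lapCount G) := by
    refine forall_congr' fun n => forall_congr' fun G => ?_
    change Q _ ↔ _
    rw [cntC_compl]
  have e5 : ForConeCompl ℤ (fun X => Q (cntC X)) ↔
      ∀ (n : ℕ) (G : SimpleGraph (Fin (n + 1))), ConeSplit G → Q (lapCount G) := by
    refine forall_congr' fun n => forall_congr' fun G => forall_congr' fun _ => ?_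
    change Q _ ↔ _
    rw [cntC_compl]
  have e6 : ForHyp ℤ (fun X => Q (cntC X)) ↔ ∀ (n : ℕ) (G : SimpleGraph (Fin (n + 1))), Q (lapZero G) := by
    refine forall_congr' fun n => forall_congr' fun G => ?_
    change Q _ ↔ _
    rw [cntC_hyp]
  have e7 : ForConeHyp ℤ (fun X => Q (cntC X)) ↔
      ∀ (n : ℕ) (G : SimpleGraph (Fin (n + 1))), ConeSplit G → Q (lapZero G) := by
    refine forall_congr' fun n => forall_congr' fun G => forall_congr' fun _ => ?_
    change Q _ ↔ _
    rw [cntC_hyp]
  have e8 : (∀ (a b c : ℕ) (H : Finset (Fin a × Fin b × Fin c)), (fun X => Q (cntC X)) (aff ℤ (Trip ℤ H))) ↔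
      ∀ (a b c : ℕ) (H : Finset (Fin a × Fin b × Fin c)), Q (triCount H) := by
    refine forall_congr' fun a => forall_congr' fun b => forall_congr' fun c => forall_congr' fun H => ?_
    change Q _ ↔ _
    rw [cntC_trip]
  have h12 : (ForAll ℤ sep fun X => Q (cntC X)) ↔ (ForSmooth ℤ sep fun X => Q (cntC X)) := h1.out 0 1
  have h13 := h1.out 0 2
  have h14 := h1.out 0 3
  have h15 := h1.out 0 4
  have h16 := h1.out 0 5
  have h17 := h1.out 0 6
  rw [e3] at h13
  rw [e4] at h14
  rw [e5] at h15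
  rw [e6] at h16
  rw [e7] at h17
  unfold Crit
  tfae_have 1 ↔ 2 := h12
  tfae_have 1 ↔ 3 := h13
  tfae_have 1 ↔ 4 := h14
  tfae_have 1 ↔ 5 := h15
  tfae_have 1 ↔ 6 := h16
  tfae_have 1 ↔ 7 := h17
  tfae_have 1 → 8 := fun hall => e8.mp fun a b c H => hall _ (ft_aff sep)
  tfae_have 8 → 1 := fun h8 => universal_int (fun n => ⟨n, Int.cast_id⟩) h.toUni (e8.mpr h8)
  tfae_finish

end Pool.Agent.P8H64.ZF
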