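import Pool.Agent.P8H64.ZF.Lw

/-!
# Euler products of the L-functions of the weights
-/

set_option autoImplicit false

open Complex

namespace Pool.Agent.P8H64.ZF

/-- The Euler factor of weight `w`: the product of `(1 - α p ^ (-s)) ^ (-m(α))` over the numbers `α` of
absolute value `p ^ (w / 2)`. -/
noncomputable def eul (m : Nat.Primes → ℂ →₀ ℤ) (w : ℕ) (s : ℂ) (p : Nat.Primes) : ℂ :=
  ∏ α ∈ (part' (wr p w) (m p)).support, (1 - α * ((p : ℕ) : ℂ) ^ (-s)) ^ (-(m p α))

lemma eul_eq {m : Nat.Primes → ℂ →₀ ℤ} {w : ℕ} {s : ℂ} (hs : (w : ℝ) / 2 < s.re) (p : Nat.Primes) :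
    HasSum (fun k => term (wc m w) s (p, k))
      (∑ α ∈ (part' (wr p w) (m p)).support, (m p α : ℂ) * -Complex.log (1 - α * ((p : ℕ) : ℂ) ^ (-s))) ∧
    Complex.exp (∑ α ∈ (part' (wr p w) (m p)).support, (m p α : ℂ) * -Complex.log (1 - α * ((p : ℕ) : ℂ) ^ (-s))) =
      eul m w s p := by
  classical
  have hz : ∀ α ∈ (part' (wr p w) (m p)).support, ‖α * ((p : ℕ) : ℂ) ^ (-s)‖ < 1 := by
    intro α hα
    rw [norm_mul, norm_of_mem_part hα, Complex.norm_natCast_cpow_of_pos p.2.pos, Complex.neg_re, wr,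
      ← Real.rpow_add (pr_pos p)]
    exact Real.rpow_lt_one_of_one_lt_of_neg (by exact_mod_cast p.2.one_lt) (by linarith)
  constructor
  · have h1 : ∀ α ∈ (part' (wr p w) (m p)).support, HasSum (fun k : ℕ =>
        (m p α : ℂ) * ((α * ((p : ℕ) : ℂ) ^ (-s)) ^ (k + 1) / ((k : ℂ) + 1)))
        ((m p α : ℂ) * -Complex.log (1 - α * ((p : ℕ) : ℂ) ^ (-s))) := by
      intro α hα
      apply HasSum.mul_left
      have h3 := Complex.hasSum_taylorSeries_neg_log (hz α hα)
      have h5 := (hasSum_nat_add_iff' 1).mpr h3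
      simp only [Finset.range_one, Finset.sum_singleton, pow_zero, Nat.cast_zero, div_zero, sub_zero] at h5
      refine h5.congr_fun ?_
      intro k
      push_cast
      rfl
    have h2 := hasSum_sum h1
    refine h2.congr_fun ?_
    intro k
    have h6 : (-(((k : ℂ) + 1) * s)) = ((k + 1 : ℕ) : ℂ) * (-s) := by
      push_cast
      ring
    rw [term, wc, ps, Finsupp.sum, h6, Complex.cpow_nat_mul, Finset.sum_div, Finset.sum_mul]
    refine Finset.sum_congr rfl fun α hα => ?_
    have h7 : part' (wr p w) (m p) α = m p α := by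
      rw [part_apply, if_pos (norm_of_mem_part hα)]
    rw [h7, mul_pow]
    ring
  · rw [Complex.exp_sum, eul]
    refine Finset.prod_congr rfl fun α hα => ?_
    have h8 : 1 - α * ((p : ℕ) : ℂ) ^ (-s) ≠ 0 := by
      intro h
      have h9 := hz α hα
      rw [← sub_eq_zero.mp h, norm_one] at h9
      exact lt_irrefl _ h9
    rw [mul_neg, ← neg_mul, ← Int.cast_neg, Complex.exp_int_mul, Complex.exp_log h8]

/-- the L-function of weight `w` is the product of the Euler factors for `Re s > w / 2 + 1` -/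
theorem hasProd_eul {C : ℕ} {m : Nat.Primes → ℂ →₀ ℤ} (hm : ∀ p, mass (m p) ≤ C) (w : ℕ) {s : ℂ}
    (hs : (w : ℝ) / 2 + 1 < s.re) : HasProd (eul m w s) (LW m w s) := by
  have h1 : (w : ℝ) / 2 < s.re := by linarith
  obtain ⟨σ, h2, h3⟩ := exists_between hs
  have h4 : Summable (term (wc m w) s) := conv_summable (conv_wc hm w h2) h3.le
  have h5 : HasSum (fun p => ∑ α ∈ (part' (wr p w) (m p)).support,
      (m p α : ℂ) * -Complex.log (1 - α * ((p : ℕ) : ℂ) ^ (-s))) (ser (wc m w) s) :=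
    h4.hasSum.prod_fiberwise fun p => (eul_eq h1 p).1
  have h6 := h5.cexp
  have h7 : (Complex.exp ∘ fun p => ∑ α ∈ (part' (wr p w) (m p)).support,
      (m p α : ℂ) * -Complex.log (1 - α * ((p : ℕ) : ℂ) ^ (-s))) = eul m w s :=
    funext fun p => (eul_eq h1 p).2
  rw [h7] at h6
  exact h6

end Pool.Agent.P8H64.ZF
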