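import Pool.Agent.P8H64.ZF.Wd

/-!
# The L-functions of the weights
-/

set_option autoImplicit false

open Complex

namespace Pool.Agent.P8H64.ZF

/-- `p ^ (w / 2)` -/
noncomputable def wr (p : Nat.Primes) (w : ℕ) : ℝ := ((p : ℕ) : ℝ) ^ ((w : ℝ) / 2)

lemma wr_pos (p : Nat.Primes) (w : ℕ) : 0 < wr p w := Real.rpow_pos_of_pos (pr_pos p) _

lemma wr_add (p : Nat.Primes) (w r : ℕ) : wr p (w + 2 * r) = ‖((p : ℕ) : ℂ) ^ r‖ * wr p w := by
  rw [wr, wr, norm_pow, Complex.norm_natCast, ← Real.rpow_natCast, ← Real.rpow_add (pr_pos p)]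
  congr 1
  push_cast
  ring

lemma wr_inj {p : Nat.Primes} {w v : ℕ} (h : wr p w = wr p v) : w = v := by
  have h1 : (1 : ℝ) < ((p : ℕ) : ℝ) := by exact_mod_cast p.2.one_lt
  rw [wr, wr, Real.rpow_right_inj (pr_pos p) h1.ne'] at h
  have h2 : (w : ℝ) = v := by linarith
  exact_mod_cast h2

/-- The numbers `N p k` are sums of `(k + 1)`-st powers of numbers `α` (with integral multiplicities
`m p α`, in absolute value at most `C` together) of absolute values `p ^ (w / 2)`, `w = 0, 1, 2, …` -/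
structure WeilData (N : Nat.Primes → ℕ → ℂ) (C : ℕ) (m : Nat.Primes → ℂ →₀ ℤ) : Prop where
  count : ∀ p k, N p k = ps (m p) k
  weight : ∀ p, ∀ α ∈ (m p).support, ∃ w : ℕ, ‖α‖ = wr p w
  bound : ∀ p, mass (m p) ≤ C

/-- the part of weight `w` -/
noncomputable def wc (m : Nat.Primes → ℂ →₀ ℤ) (w : ℕ) (p : Nat.Primes) (k : ℕ) : ℂ :=
  ps (part' (wr p w) (m p)) k

/-- the L-function of weight `w` -/
noncomputable def LW (m : Nat.Primes → ℂ →₀ ℤ) (w : ℕ) (s : ℂ) : ℂ := exp (ser (wc m w) s)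

lemma wd_unique {N : Nat.Primes → ℕ → ℂ} {C C' : ℕ} {m m' : Nat.Primes → ℂ →₀ ℤ} (h : WeilData N C m)
    (h' : WeilData N C' m') : m = m' := by
  funext p
  have h0 : ∀ {C : ℕ} {m : Nat.Primes → ℂ →₀ ℤ}, WeilData N C m → m p 0 = 0 := by
    intro C m h
    by_contra h1
    obtain ⟨w, hw⟩ := h.weight p 0 (Finsupp.mem_support_iff.mpr h1)
    rw [norm_zero] at hw
    exact (wr_pos p w).ne hw
  have h1 : m p - m' p = 0 := by
    apply ps_inj
    · rw [Finsupp.sub_apply, h0 h, h0 h', sub_zero]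
    · intro k
      rw [ps_sub, ← h.count, ← h'.count, sub_self]
  exact sub_eq_zero.mp h1

lemma mass_sub (m n : ℂ →₀ ℤ) : mass (m - n) ≤ mass m + mass n := by
  classical
  have e : ∀ l : ℂ →₀ ℤ, l.support ⊆ m.support ∪ n.support → mass l = ∑ α ∈ m.support ∪ n.support, (l α).natAbs := by
    intro l hl
    rw [mass, Finsupp.sum]
    refine Finset.sum_subset hl fun α _ h => ?_
    rw [Finsupp.notMem_support_iff.mp h, Int.natAbs_zero]
  rw [e m Finset.subset_union_left, e n Finset.subset_union_right, e (m - n) Finsupp.support_sub,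
    ← Finset.sum_add_distrib]
  refine Finset.sum_le_sum fun α _ => ?_
  rw [Finsupp.sub_apply]
  exact Int.natAbs_sub_le _ _

lemma mass_tw {c : ℂ} (hc : c ≠ 0) (m : ℂ →₀ ℤ) : mass (tw c m) = mass m := by
  have hi : Function.Injective (fun α : ℂ => c * α) := fun a b h => mul_left_cancel₀ hc h
  rw [mass, tw, Finsupp.sum_mapDomain_index_inj hi]
  rfl

lemma wd_sub {N M : Nat.Primes → ℕ → ℂ} {C D : ℕ} {m n : Nat.Primes → ℂ →₀ ℤ} (h : WeilData N C m)
    (h' : WeilData M D n) : WeilData (fun p k => N p k - M p k) (C + D) (fun p => m p - n p) where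
  count p k := by rw [h.count, h'.count, ps_sub]
  weight p α hα := by
    classical
    rcases Finset.mem_union.mp (Finsupp.support_sub hα) with h1 | h1
    · exact h.weight p α h1
    · exact h'.weight p α h1
  bound p := (mass_sub _ _).trans (Nat.add_le_add (h.bound p) (h'.bound p))

lemma pow_pr_ne (p : Nat.Primes) (r : ℕ) : ((p : ℕ) : ℂ) ^ r ≠ 0 := pow_ne_zero _ (pr_ne p)

lemma wd_tw {N : Nat.Primes → ℕ → ℂ} {C : ℕ} {m : Nat.Primes → ℂ →₀ ℤ} (h : WeilData N C m) (r : ℕ) :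
    WeilData (fun p k => (((p : ℕ) : ℂ) ^ r) ^ (k + 1) * N p k) C (fun p => tw (((p : ℕ) : ℂ) ^ r) (m p)) where
  count p k := by rw [ps_tw, h.count]
  weight p α hα := by
    rw [Finsupp.mem_support_iff, tw_apply (pow_pr_ne p r), ← Finsupp.mem_support_iff] at hα
    obtain ⟨w, hw⟩ := h.weight p _ hα
    refine ⟨w + 2 * r, ?_⟩
    rw [wr_add, ← hw, ← norm_mul, mul_inv_cancel_left₀ (pow_pr_ne p r)]
  bound p := by
    rw [mass_tw (pow_pr_ne p r)]
    exact h.bound p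

lemma wd_zero : WeilData (fun _ _ => 0) 0 (fun _ => 0) where
  count p k := (ps_zero k).symm
  weight p α hα := by
    rw [Finsupp.mem_support_iff, Finsupp.zero_apply] at hα
    exact absurd rfl hα
  bound p := by rw [mass, Finsupp.sum_zero_index]

/-- absolute convergence to the right of `w / 2 + 1` -/
lemma conv_wc {C : ℕ} {m : Nat.Primes → ℂ →₀ ℤ} (hm : ∀ p, mass (m p) ≤ C) (w : ℕ) {σ : ℝ}
    (hσ : (w : ℝ) / 2 + 1 < σ) : Conv (wc m w) σ := by
  have h1 : Conv (fun _ _ => 1) (σ - (w : ℝ) / 2) := conv_one (by linarith)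
  refine Summable.of_nonneg_of_le (fun _ => norm_nonneg _) (fun x => ?_) (h1.mul_left (C : ℝ))
  have h2 : ‖wc m w x.1 x.2‖ ≤ C * wr x.1 w ^ (x.2 + 1) := by
    refine (norm_ps_part (wr_pos x.1 w).le _ _).trans (mul_le_mul_of_nonneg_right ?_ (by
      have := wr_pos x.1 w
      positivity))
    exact_mod_cast hm x.1
  rw [norm_term, norm_term, norm_one, Complex.ofReal_re, Complex.ofReal_re]
  have h3 : ((x.1 : ℕ) : ℝ) ^ (-(((x.2 : ℝ) + 1) * (σ - (w : ℝ) / 2))) =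
      wr x.1 w ^ (x.2 + 1) * ((x.1 : ℕ) : ℝ) ^ (-(((x.2 : ℝ) + 1) * σ)) := by
    rw [wr, ← Real.rpow_natCast, ← Real.rpow_mul (pr_pos x.1).le, ← Real.rpow_add (pr_pos x.1)]
    congr 1
    push_cast
    ring
  rw [h3]
  have h4 : (0 : ℝ) ≤ ((x.1 : ℕ) : ℝ) ^ (-(((x.2 : ℝ) + 1) * σ)) := Real.rpow_nonneg (pr_pos x.1).le _
  have h5 : (0 : ℝ) < (x.2 : ℝ) + 1 := by positivity
  calc ‖wc m w x.1 x.2‖ / ((x.2 : ℝ) + 1) * ((x.1 : ℕ) : ℝ) ^ (-(((x.2 : ℝ) + 1) * σ))
      ≤ (C * wr x.1 w ^ (x.2 + 1)) / ((x.2 : ℝ) + 1) * ((x.1 : ℕ) : ℝ) ^ (-(((x.2 : ℝ) + 1) * σ)) :=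
        mul_le_mul_of_nonneg_right (div_le_div_of_nonneg_right h2 h5.le) h4
    _ = C * (1 / ((x.2 : ℝ) + 1) * (wr x.1 w ^ (x.2 + 1) * ((x.1 : ℕ) : ℝ) ^ (-(((x.2 : ℝ) + 1) * σ)))) := by
        ring

lemma wc_sub (m n : Nat.Primes → ℂ →₀ ℤ) (w : ℕ) :
    wc (fun p => m p - n p) w = fun p k => wc m w p k - wc n w p k := by
  funext p k
  rw [wc, sub_eq_add_neg, part_add, part_neg, ← sub_eq_add_neg, ps_sub]
  rfl

lemma LW_sub {C D : ℕ} {m n : Nat.Primes → ℂ →₀ ℤ} (hm : ∀ p, mass (m p) ≤ C) (hn : ∀ p, mass (n p) ≤ D)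
    (w : ℕ) {s : ℂ} (hs : (w : ℝ) / 2 + 1 < s.re) : LW (fun p => m p - n p) w s = LW m w s / LW n w s := by
  rw [LW, LW, LW, wc_sub, ser_sub (conv_wc hm w hs) (conv_wc hn w hs) le_rfl, Complex.exp_sub]

lemma wc_tw_high (m : Nat.Primes → ℂ →₀ ℤ) (w r : ℕ) :
    wc (fun p => tw (((p : ℕ) : ℂ) ^ r) (m p)) (w + 2 * r) =
      fun (p : Nat.Primes) (k : ℕ) => (((p : ℕ) : ℂ) ^ (r : ℤ)) ^ (k + 1) * wc m w p k := by
  funext p k
  rw [wc, wr_add, part_tw (pow_pr_ne p r), ps_tw, zpow_natCast]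
  rfl

lemma wc_tw_low {N : Nat.Primes → ℕ → ℂ} {C : ℕ} {m : Nat.Primes → ℂ →₀ ℤ} (h : WeilData N C m) {w r : ℕ}
    (hw : w < 2 * r) : wc (fun p => tw (((p : ℕ) : ℂ) ^ r) (m p)) w = fun _ _ => 0 := by
  funext p k
  have h1 : part' (wr p w) (tw (((p : ℕ) : ℂ) ^ r) (m p)) = 0 := by
    apply part_zero_of
    intro α hα h2
    rw [Finsupp.mem_support_iff, tw_apply (pow_pr_ne p r), ← Finsupp.mem_support_iff] at hα
    obtain ⟨v, hv⟩ := h.weight p _ hα
    have h3 : ‖α‖ = wr p (v + 2 * r) := by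
      rw [wr_add, ← hv, ← norm_mul, mul_inv_cancel_left₀ (pow_pr_ne p r)]
    rw [h2] at h3
    have := wr_inj h3
    omega
  rw [wc, h1, ps_zero]

lemma LW_tw_high (m : Nat.Primes → ℂ →₀ ℤ) (w r : ℕ) (s : ℂ) :
    LW (fun p => tw (((p : ℕ) : ℂ) ^ r) (m p)) (w + 2 * r) s = LW m w (s - r) := by
  rw [LW, LW, wc_tw_high, ser_shift, Int.cast_natCast]

lemma LW_tw_low {N : Nat.Primes → ℕ → ℂ} {C : ℕ} {m : Nat.Primes → ℂ →₀ ℤ} (h : WeilData N C m) {w r : ℕ}
    (hw : w < 2 * r) (s : ℂ) : LW (fun p => tw (((p : ℕ) : ℂ) ^ r) (m p)) w s = 1 := by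
  have h1 : ser (fun _ _ => 0) s = 0 := by
    rw [ser]
    have : term (fun _ _ => 0) s = fun _ => 0 := by
      funext x
      rw [term, zero_div, zero_mul]
    rw [this, tsum_zero]
  rw [LW, wc_tw_low h hw, h1, Complex.exp_zero]

/-- A class of functions of the weights `w = 0, 1, 2, …`, each considered in the half plane to the right of
`w / 2 + 1`: closed under products and inverses and under the shift of the argument, with `ζ`. -/
structure LClass (𝓛 : ℕ → (ℂ → ℂ) → Prop) : Prop where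
  congr : ∀ (w : ℕ) (f g : ℂ → ℂ), (∀ s : ℂ, (w : ℝ) / 2 + 1 < s.re → f s = g s) → 𝓛 w f → 𝓛 w g
  mul : ∀ (w : ℕ) (f g : ℂ → ℂ), 𝓛 w f → 𝓛 w g → 𝓛 w (fun s => f s * g s)
  inv : ∀ (w : ℕ) (f : ℂ → ℂ), 𝓛 w f → 𝓛 w (fun s => (f s)⁻¹)
  shift : ∀ (w : ℕ) (f : ℂ → ℂ), 𝓛 (w + 2) (fun s => f (s - 1)) ↔ 𝓛 w f
  one : ∀ w : ℕ, 𝓛 w fun _ => 1
  zeta : 𝓛 0 riemannZeta

lemma LClass.shift' {𝓛 : ℕ → (ℂ → ℂ) → Prop} (h : LClass 𝓛) (w r : ℕ) (f : ℂ → ℂ) :
    𝓛 (w + 2 * r) (fun s => f (s - r)) ↔ 𝓛 w f := by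
  induction r with
  | zero =>
    have h1 : (fun s : ℂ => f (s - ((0 : ℕ) : ℂ))) = f := by
      funext s
      rw [Nat.cast_zero, sub_zero]
    rw [h1]
    rfl
  | succ r ih =>
    have h1 : (fun s : ℂ => f (s - ((r + 1 : ℕ) : ℂ))) = fun s => (fun t => f (t - r)) (s - 1) := by
      funext s
      have h2 : s - ((r + 1 : ℕ) : ℂ) = s - 1 - r := by
        push_cast
        ring
      rw [h2]
    have h3 : w + 2 * (r + 1) = w + 2 * r + 2 := by ring
    rw [h1, h3]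
    exact (h.shift (w + 2 * r) fun t => f (t - r)).trans ih

/-- all L-functions of the data `N` are in the class -/
def PL (𝓛 : ℕ → (ℂ → ℂ) → Prop) (N : Nat.Primes → ℕ → ℂ) : Prop :=
  ∀ (C : ℕ) (m : Nat.Primes → ℂ →₀ ℤ), WeilData N C m → ∀ w, 𝓛 w (LW m w)

variable {𝓛 : ℕ → (ℂ → ℂ) → Prop}

/-- quotients -/
lemma pl_sub (h𝓛 : LClass 𝓛) {N M : Nat.Primes → ℕ → ℂ} (hN : PL 𝓛 N) (hM : PL 𝓛 M)
    (hd : ∃ C m, WeilData N C m) : PL 𝓛 fun p k => N p k - M p k := by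
  intro C m hm w
  obtain ⟨D, n, hn⟩ := hd
  have h1 := wd_sub hn hm
  have h2 : (fun p k => N p k - (N p k - M p k)) = M := by
    funext p k
    ring
  rw [h2] at h1
  have h3 := wd_sub hn h1
  have h4 := wd_unique h3 hm
  have h5 := hM _ _ h1 w
  have h6 := hN _ _ hn w
  refine h𝓛.congr w _ _ (fun s hs => ?_) (h𝓛.mul w _ _ h6 (h𝓛.inv w _ h5))
  have h7 := LW_sub hn.bound h1.bound w hs
  have h8 : (fun p => n p - (fun p => n p - m p) p) = m := h4
  rw [h8] at h7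
  rw [h7, div_eq_mul_inv]

/-- products -/
lemma pl_add (h𝓛 : LClass 𝓛) {N M : Nat.Primes → ℕ → ℂ} (hN : PL 𝓛 N) (hM : PL 𝓛 M)
    (hd : ∃ C m, WeilData N C m) : PL 𝓛 fun p k => N p k + M p k := by
  intro C m hm w
  obtain ⟨D, n, hn⟩ := hd
  have h1 := wd_sub hm hn
  have h2 : (fun p k => N p k + M p k - N p k) = M := by
    funext p k
    ring
  rw [h2] at h1
  have h5 := hM _ _ h1 w
  have h6 := hN _ _ hn w
  refine h𝓛.congr w _ _ (fun s hs => ?_) (h𝓛.mul w _ _ h6 h5)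
  rw [LW_sub hm.bound hn.bound w hs]
  have h7 : LW n w s ≠ 0 := Complex.exp_ne_zero _
  field_simp

/-- affine bundles -/
lemma pl_shift (h𝓛 : LClass 𝓛) {N : Nat.Primes → ℕ → ℂ} (hd : ∃ C m, WeilData N C m) (r : ℕ) :
    (PL 𝓛 fun p k => (((p : ℕ) : ℂ) ^ r) ^ (k + 1) * N p k) ↔ PL 𝓛 N := by
  obtain ⟨D, n, hn⟩ := hd
  have hn' := wd_tw hn r
  constructor
  · intro h C m hm w
    rw [wd_unique hm hn, ← h𝓛.shift' w r]
    refine h𝓛.congr _ _ _ (fun s _ => ?_) (h _ _ hn' (w + 2 * r))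
    exact LW_tw_high n w r s
  · intro h C m hm w
    rw [wd_unique hm hn']
    rcases lt_or_ge w (2 * r) with hw | hw
    · exact h𝓛.congr _ _ _ (fun s _ => (LW_tw_low hn hw s).symm) (h𝓛.one w)
    · obtain ⟨v, rfl⟩ := Nat.exists_eq_add_of_le' hw
      refine h𝓛.congr _ _ _ (fun s _ => (LW_tw_high n v r s).symm) ?_
      rw [h𝓛.shift' v r]
      exact h _ _ hn v

lemma pl_zero (h𝓛 : LClass 𝓛) : PL 𝓛 fun _ _ => 0 := by
  intro C m hm w
  rw [wd_unique hm wd_zero]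
  refine h𝓛.congr _ _ _ (fun s _ => ?_) (h𝓛.one w)
  have h1 : wc (fun _ => 0) w = fun _ _ => 0 := by
    funext p k
    have : part' (wr p w) 0 = 0 := part_zero_of (by
      intro α hα
      rw [Finsupp.mem_support_iff, Finsupp.zero_apply] at hα
      exact absurd rfl hα)
    rw [wc, this, ps_zero]
  have h2 : ser (fun _ _ => 0) s = 0 := by
    rw [ser]
    have : term (fun _ _ => 0) s = fun _ => 0 := by
      funext x
      rw [term, zero_div, zero_mul]
    rw [this, tsum_zero]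
  rw [LW, h1, h2, Complex.exp_zero]

/-- from `X × 𝔾_m` to `X` -/
lemma pl_torus (h𝓛 : LClass 𝓛) {N : Nat.Primes → ℕ → ℂ}
    (h : PL 𝓛 fun p k => (((p : ℕ) : ℂ) ^ (k + 1) - 1) * N p k) : PL 𝓛 N := by
  intro C m hm
  have h1 := wd_sub (wd_tw hm 1) hm
  have h2 : (fun (p : Nat.Primes) (k : ℕ) => (((p : ℕ) : ℂ) ^ 1) ^ (k + 1) * N p k - N p k) =
      fun (p : Nat.Primes) (k : ℕ) => (((p : ℕ) : ℂ) ^ (k + 1) - 1) * N p k := by
    funext p k
    rw [pow_one]
    ring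
  rw [h2] at h1
  have h3 := h _ _ h1
  intro w
  induction w using Nat.strong_induction_on with
  | _ w ih =>
    rcases lt_or_ge w (2 * 1) with hw | hw
    · refine h𝓛.congr w _ _ (fun s hs => ?_) (h𝓛.inv w _ (h3 w))
      rw [LW_sub (wd_tw hm 1).bound hm.bound w hs, LW_tw_low hm hw, one_div, inv_inv]
    · obtain ⟨v, rfl⟩ := Nat.exists_eq_add_of_le' hw
      have h4 := (h𝓛.shift' v 1 (LW m v)).mpr (ih v (by omega))
      refine h𝓛.congr _ _ _ (fun s hs => ?_) (h𝓛.mul _ _ _ h4 (h𝓛.inv _ _ (h3 (v + 2 * 1))))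
      rw [LW_sub (wd_tw hm 1).bound hm.bound _ hs, LW_tw_high]
      have h5 : LW m v (s - ((1 : ℕ) : ℂ)) ≠ 0 := Complex.exp_ne_zero _
      have h6 : LW m (v + 2 * 1) s ≠ 0 := Complex.exp_ne_zero _
      field_simp

/-- a point -/
lemma pl_one (h𝓛 : LClass 𝓛) : PL 𝓛 fun _ _ => 1 := by
  classical
  have h1 : WeilData (fun _ _ => 1) 1 (fun _ => Finsupp.single 1 1) :=
    { count := fun p k => by
        rw [ps, Finsupp.sum_single_index]
        · rw [Int.cast_one, one_mul, one_pow]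
        · rw [Int.cast_zero, zero_mul]
      weight := fun p α hα => by
        have h2 := Finset.mem_singleton.mp (Finsupp.support_single_subset hα)
        refine ⟨0, ?_⟩
        rw [h2, norm_one, wr, Nat.cast_zero, zero_div, Real.rpow_zero]
      bound := fun p => by
        rw [mass, Finsupp.sum_single_index] <;> rfl }
  intro C m hm w
  rw [wd_unique hm h1]
  rcases Nat.eq_zero_or_pos w with rfl | hw
  · refine h𝓛.congr _ _ _ (fun s hs => ?_) h𝓛.zeta
    have h2 : wc (fun _ => Finsupp.single 1 1) 0 = fun _ _ => 1 := by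
      funext p k
      have h3 : part' (wr p 0) (Finsupp.single 1 1) = Finsupp.single 1 1 := by
        ext α
        rw [part_apply]
        split_ifs with h4
        · rfl
        · symm
          rw [Finsupp.single_apply, if_neg]
          rintro rfl
          apply h4
          rw [norm_one, wr, Nat.cast_zero, zero_div, Real.rpow_zero]
      rw [wc, h3, ← h1.count p k]
    rw [LW, h2, exp_ser_one (by
      rw [Nat.cast_zero, zero_div, zero_add] at hs
      exact hs)]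
  · refine h𝓛.congr _ _ _ (fun s hs => ?_) (h𝓛.one w)
    have h2 : wc (fun _ => Finsupp.single 1 1) w = fun _ _ => 0 := by
      funext p k
      have h3 : part' (wr p w) (Finsupp.single 1 1) = 0 := by
        apply part_zero_of
        intro α hα h4
        have h5 := Finset.mem_singleton.mp (Finsupp.support_single_subset hα)
        have h6 : wr p w = wr p 0 := by
          rw [← h4, h5, norm_one, wr, Nat.cast_zero, zero_div, Real.rpow_zero]
        have := wr_inj h6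
        omega
      rw [wc, h3, ps_zero]
    have h3 : ser (fun _ _ => 0) s = 0 := by
      rw [ser]
      have : term (fun _ _ => 0) s = fun _ => 0 := by
        funext x
        rw [term, zero_div, zero_mul]
      rw [this, tsum_zero]
    rw [LW, h2, h3, Complex.exp_zero]

end Pool.Agent.P8H64.ZF
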