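import Pool.Agent.Y116.UV.Defs

/-!
# Points of a scheme over a field, and closed-open decompositions
-/

set_option autoImplicit false

open CategoryTheory CategoryTheory.Limits AlgebraicGeometry Pool.Agent.Y116.UV

namespace Pool.Agent.P8H64.ZF

/-- The points of the scheme `X` over `ℤ` with values in the field `F`. -/
abbrev Pt (X : Sch ℤ) (F : Type) [Field F] : Type := Spec (CommRingCat.of F) ⟶ X.left

variable {F : Type} [Field F]

/-- the image of the unique point -/
noncomputable def pt0 {X : Sch ℤ} (f : Pt X F) : X.left := f (default : PrimeSpectrum F)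

lemma range_pt {X : Sch ℤ} (f : Pt X F) : Set.range f = {pt0 f} := by
  ext x
  constructor
  · rintro ⟨y, rfl⟩
    rw [Set.mem_singleton_iff, pt0]
    congr 1
    exact Subsingleton.elim (α := PrimeSpectrum F) _ _
  · rintro rfl
    exact ⟨_, rfl⟩

/-- isomorphic schemes have the same points -/
noncomputable def pt_iso {X Y : Sch ℤ} (e : X ≅ Y) : Pt X F ≃ Pt Y F where
  toFun f := f ≫ e.hom.left
  invFun f := f ≫ e.inv.left
  left_inv f := by
    change (f ≫ e.hom.left) ≫ e.inv.left = f
    rw [Category.assoc, ← Over.comp_left, e.hom_inv_id, Over.id_left, Category.comp_id]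
  right_inv f := by
    change (f ≫ e.inv.left) ≫ e.hom.left = f
    rw [Category.assoc, ← Over.comp_left, e.inv_hom_id, Over.id_left, Category.comp_id]

lemma lift_open {X U : Sch ℤ} (j : U ⟶ X) [IsOpenImmersion j.left] (f : Pt X F)
    (h : pt0 f ∈ Set.range j.left) : ∃ g : Pt U F, g ≫ j.left = f := by
  have h1 : Set.range f ⊆ Set.range j.left := by
    rw [range_pt, Set.singleton_subset_iff]
    exact h
  exact ⟨IsOpenImmersion.lift j.left f h1, IsOpenImmersion.lift_fac _ _ _⟩

lemma lift_closed {X Z : Sch ℤ} (i : Z ⟶ X) [IsClosedImmersion i.left] (f : Pt X F)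
    (h : pt0 f ∈ Set.range i.left) : ∃ g : Pt Z F, g ≫ i.left = f := by
  have h1 : Surjective (pullback.snd i.left f) := by
    rw [surjective_iff, ← Set.range_eq_univ, Scheme.Pullback.range_snd, Set.eq_univ_iff_forall]
    intro x
    have h2 : f x = pt0 f := by
      rw [pt0]
      congr 1
      exact Subsingleton.elim (α := PrimeSpectrum F) _ _
    rw [Set.mem_preimage, h2]
    exact h
  have h3 : IsReduced (Spec (CommRingCat.of F)) := inferInstance
  have h2 : IsIso (pullback.snd i.left f) := isIso_of_isClosedImmersion_of_surjective _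
  refine ⟨inv (pullback.snd i.left f) ≫ pullback.fst i.left f, ?_⟩
  rw [Category.assoc, pullback.condition, IsIso.inv_hom_id_assoc]

lemma pt0_comp {X Y : Sch ℤ} (j : Y ⟶ X) (g : Pt Y F) : pt0 (X := X) (g ≫ j.left) = j.left (pt0 g) := by
  rw [pt0, pt0]
  exact Scheme.Hom.comp_apply g j.left _

/-- the points of `X` are the points of the closed part and the points of the open part -/
lemma pt_triple {X Z U : Sch ℤ} (i : Z ⟶ X) (j : U ⟶ X) (h : IsTriple i j) :
    Function.Bijective (Sum.elim (fun g : Pt Z F => (g ≫ i.left : Pt X F))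
      (fun g : Pt U F => (g ≫ j.left : Pt X F))) := by
  have hi := h.closed
  have hj := h.opened
  have hd : ∀ (g : Pt Z F) (g' : Pt U F), (g ≫ i.left : Pt X F) ≠ g' ≫ j.left := by
    intro g g' hg
    have h1 : i.left (pt0 g) = j.left (pt0 g') := by
      rw [← pt0_comp, ← pt0_comp, hg]
    have h2 : i.left (pt0 g) ∈ Set.range i.left := ⟨_, rfl⟩
    rw [h.compl, h1] at h2
    exact h2 ⟨_, rfl⟩
  constructor
  · rintro (g | g) (g' | g') hg
    · exact congrArg Sum.inl ((cancel_mono i.left).mp hg)
    · exact absurd hg (hd g g')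
    · exact absurd hg.symm (hd g' g)
    · exact congrArg Sum.inr ((cancel_mono j.left).mp hg)
  · intro f
    by_cases hf : pt0 f ∈ Set.range j.left
    · obtain ⟨g, hg⟩ := lift_open j f hf
      exact ⟨Sum.inr g, hg⟩
    · have hf2 : pt0 f ∈ Set.range i.left := by
        rw [h.compl]
        exact hf
      obtain ⟨g, hg⟩ := lift_closed i f hf2
      exact ⟨Sum.inl g, hg⟩

/-- the points of an affine scheme -/
noncomputable def pt_aff (A : Type) [CommRing A] [Algebra ℤ A] : Pt (aff ℤ A) F ≃ (A →+* F) where
  toFun f := (Spec.preimage f).hom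
  invFun φ := Spec.map (CommRingCat.ofHom φ)
  left_inv f := Spec.map_preimage f
  right_inv φ := by
    change (Spec.preimage (Spec.map (CommRingCat.ofHom φ))).hom = φ
    rw [Spec.preimage_map]
    rfl

end Pool.Agent.P8H64.ZF
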