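import Mathlib

/-!
# Zeta functions of point counts: convergence, products, shifts, continuation

For numbers `a p k` (in the applications the number of points over the field with `p ^ (k + 1)` elements)
the logarithm of the zeta function is the sum over the primes `p` and over `k ≥ 0` of
`a p k * p ^ (-(k + 1) s) / (k + 1)`.
-/

set_option autoImplicit false

open Complex

namespace Pool.Agent.P8H64.ZF

/-- `a p k * p ^ (-(k + 1) s) / (k + 1)` -/
noncomputable def term (a : Nat.Primes → ℕ → ℂ) (s : ℂ) (x : Nat.Primes × ℕ) : ℂ :=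
  a x.1 x.2 / ((x.2 : ℂ) + 1) * ((x.1 : ℕ) : ℂ) ^ (-(((x.2 : ℂ) + 1) * s))

/-- the sum over all primes `p` and all `k ≥ 0` of `a p k * p ^ (-(k + 1) s) / (k + 1)` -/
noncomputable def ser (a : Nat.Primes → ℕ → ℂ) (s : ℂ) : ℂ := ∑' x : Nat.Primes × ℕ, term a s x

/-- absolute convergence at the real number `σ` -/
def Conv (a : Nat.Primes → ℕ → ℂ) (σ : ℝ) : Prop := Summable fun x : Nat.Primes × ℕ => ‖term a (σ : ℂ) x‖

lemma pr_pos (p : Nat.Primes) : (0 : ℝ) < ((p : ℕ) : ℝ) := Nat.cast_pos.mpr p.2.pos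

lemma pr_one (p : Nat.Primes) : (1 : ℝ) ≤ ((p : ℕ) : ℝ) := Nat.one_le_cast.mpr p.2.one_lt.le

lemma pr_ne (p : Nat.Primes) : ((p : ℕ) : ℂ) ≠ 0 := Nat.cast_ne_zero.mpr p.2.ne_zero

lemma norm_term (a : Nat.Primes → ℕ → ℂ) (s : ℂ) (x : Nat.Primes × ℕ) :
    ‖term a s x‖ = ‖a x.1 x.2‖ / ((x.2 : ℝ) + 1) * ((x.1 : ℕ) : ℝ) ^ (-(((x.2 : ℝ) + 1) * s.re)) := by
  have h1 : ‖((x.1 : ℕ) : ℂ) ^ (-(((x.2 : ℂ) + 1) * s))‖ =
      ((x.1 : ℕ) : ℝ) ^ (-(((x.2 : ℝ) + 1) * s.re)) := by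
    have h2 : (((x.1 : ℕ) : ℝ) : ℂ) = ((x.1 : ℕ) : ℂ) := Complex.ofReal_natCast _
    rw [← h2, Complex.norm_cpow_eq_rpow_re_of_pos (pr_pos x.1)]
    congr 1
    have h3 : ((x.2 : ℂ) + 1) = (((x.2 : ℝ) + 1 : ℝ) : ℂ) := by push_cast; rfl
    rw [Complex.neg_re, h3, Complex.re_ofReal_mul]
  have h4 : ‖(x.2 : ℂ) + 1‖ = (x.2 : ℝ) + 1 := by
    have h3 : ((x.2 : ℂ) + 1) = (((x.2 : ℝ) + 1 : ℝ) : ℂ) := by push_cast; rfl
    rw [h3, Complex.norm_real, Real.norm_of_nonneg (by positivity)]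
  rw [term, norm_mul, norm_div, h1, h4]

lemma norm_term_anti (a : Nat.Primes → ℕ → ℂ) {s t : ℂ} (h : s.re ≤ t.re) (x : Nat.Primes × ℕ) :
    ‖term a t x‖ ≤ ‖term a s x‖ := by
  rw [norm_term, norm_term]
  apply mul_le_mul_of_nonneg_left _ (by positivity)
  apply Real.rpow_le_rpow_of_exponent_le (pr_one x.1)
  have : (0 : ℝ) ≤ (x.2 : ℝ) + 1 := by positivity
  nlinarith [mul_le_mul_of_nonneg_left h this]

lemma conv_norm {a : Nat.Primes → ℕ → ℂ} {σ : ℝ} (h : Conv a σ) {s : ℂ} (hs : σ ≤ s.re) :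
    Summable fun x => ‖term a s x‖ :=
  Summable.of_nonneg_of_le (fun _ => norm_nonneg _)
    (fun x => norm_term_anti a (by rw [Complex.ofReal_re]; exact hs) x) h

lemma conv_mono {a : Nat.Primes → ℕ → ℂ} {σ τ : ℝ} (h : Conv a σ) (hs : σ ≤ τ) : Conv a τ :=
  conv_norm h (by rw [Complex.ofReal_re]; exact hs)

lemma conv_summable {a : Nat.Primes → ℕ → ℂ} {σ : ℝ} (h : Conv a σ) {s : ℂ} (hs : σ ≤ s.re) :
    Summable (term a s) := (conv_norm h hs).of_norm

lemma conv_of_le {a b : Nat.Primes → ℕ → ℂ} {σ : ℝ} (h : Conv a σ) (hab : ∀ p k, ‖b p k‖ ≤ ‖a p k‖) :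
    Conv b σ := by
  refine Summable.of_nonneg_of_le (fun _ => norm_nonneg _) (fun x => ?_) h
  rw [norm_term, norm_term]
  exact mul_le_mul_of_nonneg_right (div_le_div_of_nonneg_right (hab _ _) (by positivity))
    (Real.rpow_nonneg (pr_pos x.1).le _)

lemma term_add (a b : Nat.Primes → ℕ → ℂ) (s : ℂ) (x : Nat.Primes × ℕ) :
    term (fun p k => a p k + b p k) s x = term a s x + term b s x := by
  simp only [term]
  ring

lemma term_sub (a b : Nat.Primes → ℕ → ℂ) (s : ℂ) (x : Nat.Primes × ℕ) :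
    term (fun p k => a p k - b p k) s x = term a s x - term b s x := by
  simp only [term]
  ring

lemma conv_add {a b : Nat.Primes → ℕ → ℂ} {σ : ℝ} (ha : Conv a σ) (hb : Conv b σ) :
    Conv (fun p k => a p k + b p k) σ := by
  refine Summable.of_nonneg_of_le (fun _ => norm_nonneg _) (fun x => ?_) (Summable.add ha hb)
  rw [term_add]
  exact norm_add_le _ _

lemma conv_sub {a b : Nat.Primes → ℕ → ℂ} {σ : ℝ} (ha : Conv a σ) (hb : Conv b σ) :
    Conv (fun p k => a p k - b p k) σ := by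
  refine Summable.of_nonneg_of_le (fun _ => norm_nonneg _) (fun x => ?_) (Summable.add ha hb)
  rw [term_sub]
  exact norm_sub_le _ _

lemma ser_add {a b : Nat.Primes → ℕ → ℂ} {σ : ℝ} (ha : Conv a σ) (hb : Conv b σ) {s : ℂ} (hs : σ ≤ s.re) :
    ser (fun p k => a p k + b p k) s = ser a s + ser b s := by
  rw [ser, ser, ser, ← (conv_summable ha hs).tsum_add (conv_summable hb hs)]
  exact tsum_congr fun x => term_add a b s x

lemma ser_sub {a b : Nat.Primes → ℕ → ℂ} {σ : ℝ} (ha : Conv a σ) (hb : Conv b σ) {s : ℂ} (hs : σ ≤ s.re) :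
    ser (fun p k => a p k - b p k) s = ser a s - ser b s := by
  rw [ser, ser, ser, ← (conv_summable ha hs).tsum_sub (conv_summable hb hs)]
  exact tsum_congr fun x => term_sub a b s x

lemma term_shift (a : Nat.Primes → ℕ → ℂ) (r : ℤ) (s : ℂ) (x : Nat.Primes × ℕ) :
    term (fun p k => (((p : ℕ) : ℂ) ^ r) ^ (k + 1) * a p k) s x = term a (s - r) x := by
  have h1 : ((x.1 : ℕ) : ℂ) ^ (-(((x.2 : ℂ) + 1) * (s - r))) =
      (((x.1 : ℕ) : ℂ) ^ r) ^ (x.2 + 1) * ((x.1 : ℕ) : ℂ) ^ (-(((x.2 : ℂ) + 1) * s)) := by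
    have h2 : (-(((x.2 : ℂ) + 1) * (s - r))) = ((r * ((x.2 + 1 : ℕ) : ℤ) : ℤ) : ℂ) + (-(((x.2 : ℂ) + 1) * s)) := by
      push_cast
      ring
    rw [h2, Complex.cpow_add _ _ (pr_ne x.1), Complex.cpow_intCast, zpow_mul, zpow_natCast]
  simp only [term]
  rw [h1]
  ring

lemma ser_shift (a : Nat.Primes → ℕ → ℂ) (r : ℤ) (s : ℂ) :
    ser (fun p k => (((p : ℕ) : ℂ) ^ r) ^ (k + 1) * a p k) s = ser a (s - r) :=
  tsum_congr fun x => term_shift a r s x

lemma conv_shift {a : Nat.Primes → ℕ → ℂ} {σ : ℝ} (h : Conv a σ) (r : ℤ) :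
    Conv (fun p k => (((p : ℕ) : ℂ) ^ r) ^ (k + 1) * a p k) (σ + r) := by
  have h1 : (fun x : Nat.Primes × ℕ =>
      ‖term (fun p k => (((p : ℕ) : ℂ) ^ r) ^ (k + 1) * a p k) ((σ + r : ℝ) : ℂ) x‖) =
      fun x => ‖term a (σ : ℂ) x‖ := by
    funext x
    rw [term_shift]
    congr 2
    push_cast
    ring
  rw [Conv, h1]
  exact h

/-- the sum is analytic in the half plane -/
lemma ser_analytic {a : Nat.Primes → ℕ → ℂ} {σ : ℝ} (h : Conv a σ) :
    DifferentiableOn ℂ (ser a) {s | σ < s.re} := by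
  refine differentiableOn_tsum_of_summable_norm (u := fun x => ‖term a (σ : ℂ) x‖) h (fun x => ?_)
    (isOpen_lt continuous_const Complex.continuous_re) (fun x w hw => ?_)
  · intro s _
    apply DifferentiableAt.differentiableWithinAt
    unfold term
    apply DifferentiableAt.const_mul
    apply DifferentiableAt.const_cpow
    · exact ((differentiableAt_id.const_mul _).neg)
    · exact Or.inl (pr_ne x.1)
  · exact norm_term_anti a (by rw [Complex.ofReal_re]; exact le_of_lt hw) x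

lemma exp_ser_mero {a : Nat.Primes → ℕ → ℂ} {σ : ℝ} (h : Conv a σ) {s : ℂ} (hs : σ < s.re) :
    MeromorphicAt (fun s => exp (ser a s)) s := by
  have h1 : IsOpen {s : ℂ | σ < s.re} := isOpen_lt continuous_const Complex.continuous_re
  have h2 : DifferentiableOn ℂ (fun s => exp (ser a s)) {s | σ < s.re} := (ser_analytic h).cexp
  exact (h2.analyticAt (h1.mem_nhds hs)).meromorphicAt

/-- The numbers `a p k` have an absolutely convergent logarithmic series in some half plane, and the zeta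
function (its exponential) has a meromorphic continuation to the plane. -/
def Mero (a : Nat.Primes → ℕ → ℂ) : Prop :=
  ∃ σ : ℝ, Conv a σ ∧ ∃ M : ℂ → ℂ, (∀ s, MeromorphicAt M s) ∧ ∀ s : ℂ, σ < s.re → M s = exp (ser a s)

lemma mero_add {a b : Nat.Primes → ℕ → ℂ} (ha : Mero a) (hb : Mero b) : Mero fun p k => a p k + b p k := by
  obtain ⟨σ, h1, M, h2, h3⟩ := ha
  obtain ⟨τ, h4, N, h5, h6⟩ := hb
  have h7 := conv_mono h1 (le_max_left σ τ)
  have h8 := conv_mono h4 (le_max_right σ τ)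
  refine ⟨max σ τ, conv_add h7 h8, M * N, fun s => (h2 s).mul (h5 s), fun s hs => ?_⟩
  rw [Pi.mul_apply, ser_add h7 h8 hs.le, Complex.exp_add, h3 s ((le_max_left _ _).trans_lt hs),
    h6 s ((le_max_right _ _).trans_lt hs)]

lemma mero_sub {a b : Nat.Primes → ℕ → ℂ} (ha : Mero a) (hb : Mero b) : Mero fun p k => a p k - b p k := by
  obtain ⟨σ, h1, M, h2, h3⟩ := ha
  obtain ⟨τ, h4, N, h5, h6⟩ := hb
  have h7 := conv_mono h1 (le_max_left σ τ)
  have h8 := conv_mono h4 (le_max_right σ τ)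
  refine ⟨max σ τ, conv_sub h7 h8, M / N, fun s => (h2 s).div (h5 s), fun s hs => ?_⟩
  rw [Pi.div_apply, ser_sub h7 h8 hs.le, Complex.exp_sub, h3 s ((le_max_left _ _).trans_lt hs),
    h6 s ((le_max_right _ _).trans_lt hs)]

lemma mero_comp {M : ℂ → ℂ} (h : ∀ s, MeromorphicAt M s) (c : ℂ) (s : ℂ) :
    MeromorphicAt (fun t => M (t + c)) s :=
  meromorphicAt_comp_add_const_iff_meromorphicAt.mpr (h (s + c))

lemma mero_shift {a : Nat.Primes → ℕ → ℂ} (ha : Mero a) (r : ℤ) :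
    Mero fun p k => (((p : ℕ) : ℂ) ^ r) ^ (k + 1) * a p k := by
  obtain ⟨σ, h1, M, h2, h3⟩ := ha
  refine ⟨σ + r, conv_shift h1 r, fun s => M (s + (-(r : ℂ))), fun s => mero_comp h2 _ s, fun s hs => ?_⟩
  have h4 : σ < (s + (-(r : ℂ))).re := by
    rw [Complex.add_re, Complex.neg_re, Complex.intCast_re]
    linarith
  change M (s + (-(r : ℂ))) = _
  rw [ser_shift, h3 _ h4, sub_eq_add_neg]

lemma mero_shift_iff {a : Nat.Primes → ℕ → ℂ} (r : ℤ) :
    (Mero fun p k => (((p : ℕ) : ℂ) ^ r) ^ (k + 1) * a p k) ↔ Mero a := by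
  refine ⟨fun h => ?_, fun h => mero_shift h r⟩
  have h1 := mero_shift h (-r)
  have h2 : (fun (p : Nat.Primes) (k : ℕ) => (((p : ℕ) : ℂ) ^ (-r)) ^ (k + 1) *
      ((((p : ℕ) : ℂ) ^ r) ^ (k + 1) * a p k)) = a := by
    funext p k
    rw [← mul_assoc, ← mul_pow, ← zpow_add₀ (pr_ne p), neg_add_cancel, zpow_zero, one_pow, one_mul]
  rw [h2] at h1
  exact h1

/-- from `X × 𝔾_m` to `X`: if `(p ^ (k + 1) - 1) a p k` has a meromorphic zeta function, so has `a`
(which is absolutely convergent in some half plane). -/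
lemma mero_torus {a : Nat.Primes → ℕ → ℂ} (h : Mero fun p k => (((p : ℕ) : ℂ) ^ (k + 1) - 1) * a p k) :
    Mero a := by
  obtain ⟨σ, h1, N, h2, h3⟩ := h
  -- convergence for `a`
  have ha : Conv a σ := by
    refine conv_of_le h1 fun p k => ?_
    rw [norm_mul]
    have h4 : (1 : ℝ) ≤ ‖((p : ℕ) : ℂ) ^ (k + 1) - 1‖ := by
      have h5 : ((p : ℕ) : ℂ) ^ (k + 1) - 1 = (((p : ℕ) : ℝ) ^ (k + 1) - 1 : ℝ) := by push_cast; rfl
      have h6 : (2 : ℝ) ≤ ((p : ℕ) : ℝ) := by exact_mod_cast p.2.two_le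
      have h7 : (2 : ℝ) ≤ ((p : ℕ) : ℝ) ^ (k + 1) := by
        calc (2 : ℝ) ≤ ((p : ℕ) : ℝ) ^ 1 := by rw [pow_one]; exact h6
          _ ≤ ((p : ℕ) : ℝ) ^ (k + 1) := pow_le_pow_right₀ (pr_one p) (by omega)
      rw [h5, Complex.norm_real, Real.norm_of_nonneg (by linarith)]
      linarith
    calc ‖a p k‖ = 1 * ‖a p k‖ := (one_mul _).symm
      _ ≤ _ := mul_le_mul_of_nonneg_right h4 (norm_nonneg _)
  let E : ℂ → ℂ := fun s => exp (ser a s)
  -- the functional relation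
  have hE : ∀ s : ℂ, σ < s.re → E s = N (s + 1) * E (s + 1) := by
    intro s hs
    have h4 : σ < (s + 1).re := by
      rw [Complex.add_re, Complex.one_re]
      linarith
    have h5 : σ + ((1 : ℤ) : ℝ) ≤ (s + 1).re := by
      rw [Complex.add_re, Complex.one_re]
      push_cast
      linarith
    have h6 : ser (fun p k => (((p : ℕ) : ℂ) ^ (k + 1) - 1) * a p k) (s + 1) = ser a s - ser a (s + 1) := by
      have h7 : (fun (p : Nat.Primes) (k : ℕ) => (((p : ℕ) : ℂ) ^ (k + 1) - 1) * a p k) =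
          fun (p : Nat.Primes) (k : ℕ) => (((p : ℕ) : ℂ) ^ (1 : ℤ)) ^ (k + 1) * a p k - a p k := by
        funext p k
        rw [zpow_one]
        ring
      rw [h7, ser_sub (conv_shift ha 1) (conv_mono ha (by push_cast; linarith)) h5, ser_shift]
      congr 2
      push_cast
      ring
    change exp (ser a s) = N (s + 1) * exp (ser a (s + 1))
    rw [h3 _ h4, h6, ← Complex.exp_add]
    congr 1
    ring
  -- the continuation
  let F : ℕ → ℂ → ℂ := fun n s => (∏ j ∈ Finset.range n, N (s + (((j : ℕ) : ℂ) + 1))) * E (s + (n : ℂ))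
  have hF : ∀ (n : ℕ) (s : ℂ), σ < s.re + n → F (n + 1) s = F n s := by
    intro n s hs
    have h4 : σ < (s + (n : ℂ)).re := by
      rw [Complex.add_re, Complex.natCast_re]
      exact hs
    change (∏ j ∈ Finset.range (n + 1), N (s + (((j : ℕ) : ℂ) + 1))) * E (s + ((n + 1 : ℕ) : ℂ)) =
      (∏ j ∈ Finset.range n, N (s + (((j : ℕ) : ℂ) + 1))) * E (s + (n : ℂ))
    rw [Finset.prod_range_succ, hE _ h4, mul_assoc]
    have h5 : s + ((n + 1 : ℕ) : ℂ) = s + (n : ℂ) + 1 := by push_cast; ring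
    have h6 : s + ((n : ℂ) + 1) = s + (n : ℂ) + 1 := by ring
    rw [h5, h6]
  have hF2 : ∀ (n m : ℕ) (s : ℂ), σ < s.re + n → F (n + m) s = F n s := by
    intro n m s hs
    induction m with
    | zero => rfl
    | succ m ih =>
      rw [← add_assoc, hF (n + m) s (by push_cast; linarith [Nat.cast_nonneg (α := ℝ) m]), ih]
  have hF3 : ∀ (n m : ℕ) (s : ℂ), σ < s.re + n → σ < s.re + m → F n s = F m s := by
    intro n m s hn hm
    rcases le_total n m with h | h
    · obtain ⟨l, rfl⟩ := Nat.exists_eq_add_of_le h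
      exact (hF2 n l s hn).symm
    · obtain ⟨l, rfl⟩ := Nat.exists_eq_add_of_le h
      exact hF2 m l s hm
  have hex : ∀ s : ℂ, ∃ n : ℕ, σ < s.re + n := by
    intro s
    obtain ⟨n, hn⟩ := exists_nat_gt (σ - s.re)
    exact ⟨n, by linarith⟩
  choose ν hν using hex
  have hM : ∀ (n : ℕ) (s : ℂ), σ < s.re + n → F (ν s) s = F n s := fun n s hs => hF3 _ _ s (hν s) hs
  have hFm : ∀ (n : ℕ) (s : ℂ), σ < s.re + n → MeromorphicAt (F n) s := by
    intro n s hs
    have h4 : MeromorphicAt (fun t : ℂ => ∏ j ∈ Finset.range n, N (t + (((j : ℕ) : ℂ) + 1))) s :=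
      MeromorphicAt.fun_prod fun j _ => mero_comp h2 _ s
    have h5 : MeromorphicAt (fun t : ℂ => E (t + (n : ℂ))) s := by
      refine meromorphicAt_comp_add_const_iff_meromorphicAt.mpr (exp_ser_mero ha ?_)
      rw [Complex.add_re, Complex.natCast_re]
      exact hs
    exact h4.mul h5
  refine ⟨σ, ha, fun s => F (ν s) s, fun s => ?_, fun s hs => ?_⟩
  · obtain ⟨n, hn⟩ : ∃ n : ℕ, σ < s.re + n := ⟨ν s, hν s⟩
    refine (hFm n s hn).congr (Filter.Eventually.filter_mono nhdsWithin_le_nhds ?_)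
    have h4 : IsOpen {t : ℂ | σ < t.re + n} :=
      isOpen_lt continuous_const (Complex.continuous_re.add continuous_const)
    filter_upwards [h4.mem_nhds hn] with t ht
    exact (hM n t ht).symm
  · change F (ν s) s = _
    rw [hM 0 s (by push_cast; linarith)]
    change (∏ j ∈ Finset.range 0, N (s + (((j : ℕ) : ℂ) + 1))) * exp (ser a (s + ((0 : ℕ) : ℂ))) = _
    rw [Finset.prod_range_zero, one_mul, Nat.cast_zero, add_zero]

end Pool.Agent.P8H64.ZF
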