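import Pool.Agent.P8H64.ZF.One

/-!
# Power sums of Weil numbers and their weights
-/

set_option autoImplicit false

open Complex

namespace Pool.Agent.P8H64.ZF

/-- the power sum `∑ m(α) α ^ (k + 1)` -/
noncomputable def ps (m : ℂ →₀ ℤ) (k : ℕ) : ℂ := m.sum fun α c => (c : ℂ) * α ^ (k + 1)

lemma ps_zero (k : ℕ) : ps 0 k = 0 := Finsupp.sum_zero_index

lemma ps_add (m n : ℂ →₀ ℤ) (k : ℕ) : ps (m + n) k = ps m k + ps n k := by
  rw [ps, Finsupp.sum_add_index]
  · rfl
  · intro α _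
    rw [Int.cast_zero, zero_mul]
  · intro α _ b c
    rw [Int.cast_add, add_mul]

lemma ps_neg (m : ℂ →₀ ℤ) (k : ℕ) : ps (-m) k = -ps m k := by
  have h := ps_add m (-m) k
  rw [add_neg_cancel, ps_zero] at h
  linear_combination -h

lemma ps_sub (m n : ℂ →₀ ℤ) (k : ℕ) : ps (m - n) k = ps m k - ps n k := by
  rw [sub_eq_add_neg, ps_add, ps_neg, sub_eq_add_neg]

/-- all numbers multiplied by `c` -/
noncomputable def tw (c : ℂ) (m : ℂ →₀ ℤ) : ℂ →₀ ℤ := m.mapDomain (fun α => c * α)

lemma ps_tw (c : ℂ) (m : ℂ →₀ ℤ) (k : ℕ) : ps (tw c m) k = c ^ (k + 1) * ps m k := by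
  rw [ps, tw, Finsupp.sum_mapDomain_index, ps, Finsupp.mul_sum]
  · refine Finsupp.sum_congr fun α _ => ?_
    rw [mul_pow]
    ring
  · intro α
    rw [Int.cast_zero, zero_mul]
  · intro α b c
    rw [Int.cast_add, add_mul]

lemma tw_apply {c : ℂ} (hc : c ≠ 0) (m : ℂ →₀ ℤ) (α : ℂ) : tw c m α = m (c⁻¹ * α) := by
  have hi : Function.Injective (fun α : ℂ => c * α) := fun a b h => mul_left_cancel₀ hc h
  have h1 : α = c * (c⁻¹ * α) := by rw [mul_inv_cancel_left₀ hc]
  rw [tw]
  conv_lhs => rw [h1]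
  exact Finsupp.mapDomain_apply hi m _

/-- the part with the absolute value `r` -/
noncomputable def part' (r : ℝ) (m : ℂ →₀ ℤ) : ℂ →₀ ℤ := by
  classical
  exact m.filter fun α => ‖α‖ = r

lemma part_add (r : ℝ) (m n : ℂ →₀ ℤ) : part' r (m + n) = part' r m + part' r n := by
  classical
  exact Finsupp.filter_add

lemma part_apply (r : ℝ) (m : ℂ →₀ ℤ) (α : ℂ) [Decidable (‖α‖ = r)] :
    part' r m α = if ‖α‖ = r then m α else 0 := by
  rw [part', Finsupp.filter_apply]
  congr

lemma part_neg (r : ℝ) (m : ℂ →₀ ℤ) : part' r (-m) = -part' r m := by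
  classical
  ext α
  rw [Finsupp.neg_apply, part_apply, part_apply, Finsupp.neg_apply]
  split_ifs <;> simp

lemma part_tw {c : ℂ} (hc : c ≠ 0) (r : ℝ) (m : ℂ →₀ ℤ) : part' (‖c‖ * r) (tw c m) = tw c (part' r m) := by
  classical
  ext α
  rw [tw_apply hc, part_apply, part_apply, tw_apply hc]
  have h1 : ‖α‖ = ‖c‖ * r ↔ ‖c⁻¹ * α‖ = r := by
    have h2 : ‖c‖ ≠ 0 := norm_ne_zero_iff.mpr hc
    rw [norm_mul, norm_inv]
    constructor
    · intro h
      rw [h, inv_mul_cancel_left₀ h2]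
    · intro h
      rw [← h, mul_inv_cancel_left₀ h2]
  rw [if_congr h1 rfl rfl]

lemma part_zero_of {r : ℝ} {m : ℂ →₀ ℤ} (h : ∀ α ∈ m.support, ‖α‖ ≠ r) : part' r m = 0 := by
  classical
  ext α
  rw [part_apply, Finsupp.zero_apply]
  split_ifs with h1
  · by_contra h2
    exact h α (Finsupp.mem_support_iff.mpr h2) h1
  · rfl

lemma lin_pow : LinearIndependent ℂ (fun (α : ℂ) (k : ℕ) => α ^ k) := by
  have h1 := linearIndependent_monoidHom (Multiplicative ℕ) ℂ
  have h2 : Function.Injective (fun α : ℂ => (powersHom ℂ α : Multiplicative ℕ →* ℂ)) := by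
    intro a b h
    have h3 := congrArg (fun f : Multiplicative ℕ →* ℂ => f (Multiplicative.ofAdd 1)) h
    simpa using h3
  have h3 := h1.comp _ h2
  have h4 : (fun (α : ℂ) (k : Multiplicative ℕ) => ((powersHom ℂ α : Multiplicative ℕ →* ℂ) k)) =
      fun (α : ℂ) (k : Multiplicative ℕ) => α ^ (Multiplicative.toAdd k) := by
    funext α k
    rfl
  exact h3

/-- the multiplicities are determined by the power sums -/
lemma ps_inj {m : ℂ →₀ ℤ} (h0 : m 0 = 0) (h : ∀ k, ps m k = 0) : m = 0 := by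
  classical
  let c : ℂ →₀ ℂ := Finsupp.onFinset m.support (fun α => (m α : ℂ) * α) (by
    intro α hα
    rw [Finsupp.mem_support_iff]
    intro h1
    exact hα (by rw [h1, Int.cast_zero, zero_mul]))
  have h1 : Finsupp.linearCombination ℂ (fun (α : ℂ) (k : ℕ) => α ^ k) c = 0 := by
    funext k
    rw [Finsupp.linearCombination_apply, Finsupp.onFinset_sum]
    · rw [Finset.sum_apply, Pi.zero_apply, ← h k, ps, Finsupp.sum]
      refine Finset.sum_congr rfl fun α _ => ?_
      rw [Pi.smul_apply, smul_eq_mul, pow_succ]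
      ring
    · intro α
      exact zero_smul _ _
  have h2 := linearIndependent_iff.mp lin_pow c h1
  ext α
  rw [Finsupp.zero_apply]
  by_cases hα : α = 0
  · rw [hα, h0]
  · have h3 : (m α : ℂ) * α = 0 := by
      have := DFunLike.congr_fun h2 α
      exact this
    have h4 := (mul_eq_zero.mp h3).resolve_right hα
    exact_mod_cast h4

/-- the sum of the absolute values of the multiplicities -/
def mass (m : ℂ →₀ ℤ) : ℕ := m.sum fun _ c => c.natAbs

lemma mass_part (r : ℝ) (m : ℂ →₀ ℤ) : mass (part' r m) ≤ mass m := by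
  classical
  have h1 : (part' r m).support ⊆ m.support := by
    intro α hα
    rw [Finsupp.mem_support_iff] at hα ⊢
    intro h2
    apply hα
    rw [part_apply, h2, ite_self]
  rw [mass, mass, Finsupp.sum, Finsupp.sum]
  calc ∑ a ∈ (part' r m).support, ((part' r m) a).natAbs ≤ ∑ a ∈ m.support, ((part' r m) a).natAbs :=
        Finset.sum_le_sum_of_subset h1
    _ ≤ ∑ a ∈ m.support, (m a).natAbs := by
        refine Finset.sum_le_sum fun a _ => ?_
        rw [part_apply]
        split_ifs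
        · exact le_rfl
        · exact Nat.zero_le _

lemma norm_of_mem_part {r : ℝ} {m : ℂ →₀ ℤ} {α : ℂ} (h : α ∈ (part' r m).support) : ‖α‖ = r := by
  classical
  rw [Finsupp.mem_support_iff, part_apply] at h
  by_contra h1
  exact h (if_neg h1)

lemma norm_ps_part {r : ℝ} (hr : 0 ≤ r) (m : ℂ →₀ ℤ) (k : ℕ) :
    ‖ps (part' r m) k‖ ≤ mass m * r ^ (k + 1) := by
  have h1 : ‖ps (part' r m) k‖ ≤ ∑ α ∈ (part' r m).support, (((part' r m) α).natAbs : ℝ) * r ^ (k + 1) := by
    rw [ps, Finsupp.sum]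
    refine (norm_sum_le _ _).trans (Finset.sum_le_sum fun α hα => ?_)
    rw [norm_mul, norm_pow, norm_of_mem_part hα, Complex.norm_intCast, Nat.cast_natAbs, Int.cast_abs]
  rw [← Finset.sum_mul] at h1
  refine h1.trans (mul_le_mul_of_nonneg_right ?_ (pow_nonneg hr _))
  have h2 := mass_part r m
  rw [mass, Finsupp.sum] at h2
  exact_mod_cast h2

end Pool.Agent.P8H64.ZF
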